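import Pool.Agent.H8.DS.Geo2

/-!
Targets: models near good directions, the flat part, almost every direction (MP_81a758_an).
-/

namespace DS

open Set Data MeasureTheory

/-- CTB. Countably many points of a slit run into an end point at once, or come from one. -/
def T_CTB : Prop := ∀ (C S : Type) [Finite S] (X : Data C S), X.Surface → ∀ (t : ℝ) (s : S),
  {ξ | X.EndA t (s, ξ)}.Countable ∧ {ξ | X.EndB t (s, ξ)}.Countable

/-- GEN. All but countably many points of a slit are generic. -/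
def T_GEN : Prop := ∀ (C S : Type) [Finite S] (X : Data C S), X.Surface → ∀ (t : ℝ) (s : S),
  {ξ | ¬ X.Gen t (s, ξ)}.Countable

/-- INV. Invariance of `Gen` and `Rr`. -/
def T_INV : Prop := ∀ (C S : Type) [Finite S] (X : Data C S), X.Surface → ∀ (t : ℝ)
  (y y' : S × ℝ), X.Hit t y y' → (X.Gen t y ↔ X.Gen t y') ∧
    (¬ X.Hopf (X.comp (X.glue y.1)) → (X.Rr t y ↔ X.Rr t y'))

/-- FCO. `FC` is locally affine. -/
def T_FCO : Prop := ∀ (C S : Type) [Finite S] (X : Data C S), X.Surface → ∀ (t : ℝ) (n : ℕ)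
  (y y' : S × ℝ), X.FC t n y y' → ∃ α > 0, ∃ ε > 0, ∀ δ, |δ| < ε →
    X.FC t n (y.1, y.2 + δ) (y'.1, y'.2 + α * δ)

/-- FCGO. `FC` in terms of the words of a model. -/
def T_FCGO : Prop := ∀ (C S B Q : Type) (X : Data C S) (w : S → ℝ) (M : X.Model w B Q),
  ∀ t ∈ Ioo M.lo M.hi, ∀ (n : ℕ) (y y' : S × ℝ), X.FC t n y y' ↔
    ∃ v : List B, v.length = n ∧ (∀ b ∈ v, ¬ X.Hopf (X.comp (X.glue (M.src b)))) ∧
      (M.toFam.sys t).Go v y y'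

/-- K1. Entries into and exits from the flat part happen in bounded time. -/
def T_K1 : Prop := ∀ (C S B Q : Type) [Finite S] [Finite B] (X : Data C S) (w : S → ℝ),
  X.Surface → X.Wt w → ∀ (M : X.Model w B Q), ∀ t ∈ Ioo M.lo M.hi,
  ∃ N, ∀ n ≥ N, ∀ y y', X.FC t n y y' →
    ¬ X.Hopf (X.comp (X.glue y'.1)) ∧ ¬ X.Hopf (X.comp y.1)

/-- K2A. A point with enough flat passes on both sides: its generic neighbours are in `Rr`. -/
def T_K2A : Prop := ∀ (C S : Type) [Finite S] (X : Data C S), X.Surface → ∀ t, X.Tgood t →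
  ∀ N, (∀ n ≥ N, ∀ y y', X.FC t n y y' →
    ¬ X.Hopf (X.comp (X.glue y'.1)) ∧ ¬ X.Hopf (X.comp y.1)) →
  (∀ y : S × ℝ, 0 < y.2 → y.2 < 1 → X.Gen t y → (∃ y', X.FC t N y y') →
    (∃ y', X.FC t N y' y) → X.Rr t y) ∧
  (∀ y : S × ℝ, (∃ y', X.FC t N y y') → (∃ y', X.FC t N y' y) → 0 < y.2 → y.2 < 1 →
    ∃ ε > 0, ∀ δ, |δ| < ε → X.Gen t (y.1, y.2 + δ) → X.Rr t (y.1, y.2 + δ))

/-- K2. On every slit all generic points are in `Rr`, or none. -/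
def T_K2 : Prop := ∀ (C S : Type) [Finite S] (X : Data C S), X.Surface → ∀ t, X.Tgood t →
  ∀ N, (∀ n ≥ N, ∀ y y', X.FC t n y y' →
    ¬ X.Hopf (X.comp (X.glue y'.1)) ∧ ¬ X.Hopf (X.comp y.1)) →
  ∀ s, X.RR t s → ∀ ξ ∈ Ioo (0 : ℝ) 1, X.Gen t (s, ξ) → X.Rr t (s, ξ)

/-- K2B. `RR` along one flat return. -/
def T_K2B : Prop := ∀ (C S : Type) [Finite S] (X : Data C S), X.Surface → ∀ t,
  (∀ s, X.RR t s → ∀ ξ ∈ Ioo (0 : ℝ) 1, X.Gen t (s, ξ) → X.Rr t (s, ξ)) →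
  ∀ y y' : S × ℝ, X.Hit t y y' → ¬ X.Hopf (X.comp (X.glue y.1)) → (X.RR t y.1 ↔ X.RR t y'.1)

/-- K3G. Around the left end of a slit in a flat torus. -/
def T_K3G : Prop := ∀ (C S : Type) [Finite S] (X : Data C S), X.Surface → ∀ t, X.Tgood t →
  ∀ s, ¬ X.Hopf (X.comp s) → ∃ (j k : S) (ξ₁ ξ₂ ξ₃ η₁ η₂ η₃ : ℝ), X.comp (X.glue j) = X.comp s ∧
    X.Hit t (j, ξ₁) (s, η₁) ∧ X.Hit t (j, ξ₂) (k, η₂) ∧ X.Hit t (X.glue.symm s, ξ₃) (k, η₃)

/-- K4G. Between two slits of a flat torus there is a chain of returns in that torus, where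
between two returns one may pass through a slit. -/
def T_K4G : Prop := ∀ (C S : Type) [Finite S] (X : Data C S), X.Surface → ∀ t, X.Tgood t →
  ∀ s k, X.comp s = X.comp k → ¬ X.Hopf (X.comp s) →
  Relation.ReflTransGen (fun s₁ s₂ => X.comp s₁ = X.comp s₂ ∧ ∃ ξ₁ ξ₂ : ℝ,
    X.Hit t (X.glue.symm s₁, ξ₁) (s₂, ξ₂)) s k

/-- K5. No flat orbit is infinite in both directions. -/
def T_K5 : Prop := ∀ (C S : Type) [Finite S] (X : Data C S), X.Surface → ∀ t, X.Tgood t →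
  (∀ s, X.RR t s → ∀ ξ ∈ Ioo (0 : ℝ) 1, X.Gen t (s, ξ) → X.Rr t (s, ξ)) → ∀ s, ¬ X.RR t s

/-- K6. The number of consecutive returns in flat tori is bounded. -/
def T_K6 : Prop := ∀ (C S B Q : Type) [Finite S] [Finite B] (X : Data C S) (w : S → ℝ),
  X.Surface → X.Wt w → ∀ (M : X.Model w B Q), ∀ t ∈ Ioo M.lo M.hi, X.Tgood t →
  ∃ n, ∀ y y', ¬ X.FC t n y y'

/-- LFF. Local finiteness of the relevant lifts, start in a flat torus. -/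
def T_LFF : Prop := ∀ (C S : Type) [Finite S] (X : Data C S), X.Surface → ∀ t₀, X.Tgood t₀ →
  ∀ s, ¬ X.Hopf (X.comp (X.glue s)) → ∃ ε > 0, ∃ K : Finset (Lift S),
    (∀ k ∈ K, X.comp k.1 = X.comp (X.glue s) ∧ X.b (X.glue s) < X.hgt k) ∧
    ∀ t, |t - t₀| < ε → ∀ ξ ∈ Ioo (0 : ℝ) 1, ∀ k, X.Meets t s ξ k →
      ∃ k' ∈ K, X.hgt k' ≤ X.hgt k ∧ X.Meets t s ξ k'

/-- LFH. Local finiteness of the relevant lifts, start in a Hopf torus. -/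
def T_LFH : Prop := ∀ (C S : Type) [Finite S] (X : Data C S) (w : S → ℝ), X.Surface → X.Upper →
  X.Wt w → ∀ t₀, X.Tgood t₀ →
  ∀ s, X.Hopf (X.comp (X.glue s)) → ∃ ε > 0, ∃ K : Finset (Lift S),
    (∀ k ∈ K, X.comp k.1 = X.comp (X.glue s) ∧ X.b (X.glue s) < X.hgt k) ∧
    ∀ t, |t - t₀| < ε → ∀ ξ ∈ Ioo (0 : ℝ) 1, ∀ k, X.Meets t s ξ k →
      ∃ k' ∈ K, X.hgt k' ≤ X.hgt k ∧ X.Meets t s ξ k'

/-- LF. Local finiteness of the relevant lifts. -/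
def T_LF : Prop := ∀ (C S : Type) [Finite S] (X : Data C S) (w : S → ℝ), X.Surface → X.Upper →
  X.Wt w → ∀ t₀, X.Tgood t₀ → ∃ ε > 0, ∃ K : S → Finset (Lift S), ∀ s,
    (∀ k ∈ K s, X.comp k.1 = X.comp (X.glue s) ∧ X.b (X.glue s) < X.hgt k) ∧
    ∀ t, |t - t₀| < ε → ∀ ξ ∈ Ioo (0 : ℝ) 1, ∀ k, X.Meets t s ξ k →
      ∃ k' ∈ K s, X.hgt k' ≤ X.hgt k ∧ X.Meets t s ξ k'

/-- MEET. The meaning of `La`, `Lb`, `Lc` and `q`. -/
def T_MEET : Prop := ∀ (C S : Type) (X : Data C S), X.Surface → ∀ (t : ℝ) (s : S) (ξ : ℝ)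
  (k : Lift S), X.comp k.1 = X.comp (X.glue s) → X.b (X.glue s) < X.hgt k →
  0 < X.La s k ∧ 0 < X.Lb s k ∧
  (∀ η, fwd t (X.pt (X.glue s) ξ) (X.hgt k - X.b (X.glue s)) = act (X.lel k) (X.pt k.1 η) ↔
    η = X.La s k * ξ + (X.Lb s k * t + X.Lc s k)) ∧
  (X.q s k 0 t ≤ ξ ↔ 0 ≤ X.La s k * ξ + (X.Lb s k * t + X.Lc s k)) ∧
  (X.q s k 0 t < ξ ↔ 0 < X.La s k * ξ + (X.Lb s k * t + X.Lc s k)) ∧
  (ξ ≤ X.q s k 1 t ↔ X.La s k * ξ + (X.Lb s k * t + X.Lc s k) ≤ 1) ∧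
  (ξ < X.q s k 1 t ↔ X.La s k * ξ + (X.Lb s k * t + X.Lc s k) < 1)

/-- FIRSTK. The first return in terms of the relevant lifts. -/
def T_FIRSTK : Prop := ∀ (C S : Type) [Finite S] (X : Data C S), X.Surface → X.Upper →
  ∀ (t : ℝ) (s : S) (K : Finset (Lift S)),
  (∀ k ∈ K, X.comp k.1 = X.comp (X.glue s) ∧ X.b (X.glue s) < X.hgt k) →
  (∀ ξ ∈ Ioo (0 : ℝ) 1, ∀ k, X.Meets t s ξ k → ∃ k' ∈ K, X.hgt k' ≤ X.hgt k ∧
    X.Meets t s ξ k') →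
  ∀ ξ ∈ Ioo (0 : ℝ) 1, ∀ y' : S × ℝ, X.Hit t (s, ξ) y' ↔
    ∃ k ∈ K, k.1 = y'.1 ∧ y'.2 = X.La s k * ξ + (X.Lb s k * t + X.Lc s k) ∧
      X.q s k 0 t < ξ ∧ ξ < X.q s k 1 t ∧ ∀ k' ∈ K, X.Meets t s ξ k' → X.hgt k ≤ X.hgt k'

/-- MODEL. Near every good direction there is a model. -/
def T_MODEL : Prop := ∀ (C S : Type) [Finite S] (X : Data C S) (w : S → ℝ), X.Surface →
  X.Upper → X.Wt w → ∀ t₀, X.Tgood t₀ → ∃ (B Q : Type) (_ : Finite B) (_ : Finite Q)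
    (M : X.Model w B Q), t₀ ∈ Ioo M.lo M.hi

/-- HL. Words of length `L` contract, where no word of length `L` is flat. -/
def T_HL : Prop := ∀ (C S B Q : Type) [Finite B] (X : Data C S) (w : S → ℝ),
  X.Surface → X.Wt w → ∀ (M : X.Model w B Q), ∃ ρ : ℝ, 0 < ρ ∧ ρ < 1 ∧
  ∀ t ∈ Ioo M.lo M.hi, ∀ L : ℕ, (∀ y y', ¬ X.FC t L y y') → ∀ v : List B, v.length = L →
    ∀ y y', (M.toFam.sys t).Go v y y' →
      (M.toFam.sys t).wal v * (X.len y'.1 / w y'.1) ≤ ρ * (X.len y.1 / w y.1)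

/-- GN. A good system gives a nice direction. -/
def T_GN : Prop := ∀ (C S B Q : Type) [Finite S] [Finite B] (X : Data C S) (w : S → ℝ),
  X.Surface → X.Wt w → ∀ (M : X.Model w B Q) (L n : ℕ) (ρ : ℝ), 0 < L → 0 < ρ → ρ < 1 →
  ∀ t ∈ Ioo M.lo M.hi, (∀ y y', ¬ X.FC t L y y') → (∀ v : List B, v.length = L →
    ∀ y y', (M.toFam.sys t).Go v y y' →
      (M.toFam.sys t).wal v * (X.len y'.1 / w y'.1) ≤ ρ * (X.len y.1 / w y.1)) →
  (M.toFam.sys t).Good (fun s => {x | ∃ i, M.qs i = s ∧ x = M.qb i - M.qa i * t}) n →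
  X.Nice t

/-- LOCAE. Almost every direction near a good direction is nice. -/
def T_LOCAE : Prop := ∀ (C S B Q : Type) [Finite S] [Finite B] [Finite Q] (X : Data C S)
  (w : S → ℝ), X.Surface → X.Wt w → (∀ᵐ t, X.Tgood t) → ∀ (M : X.Model w B Q),
  ∀ᵐ t, t ∈ Ioo M.lo M.hi → X.Nice t

/-- EXC1. The first three conditions on good directions exclude countably many. -/
def T_EXC1 : Prop := ∀ (C S : Type) [Finite C] [Finite S] (X : Data C S), X.Surface →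
  {t | ¬ ((∀ c e f, X.kind c = .flat e f → ∀ m n : ℤ,
      m * e.1 + n * f.1 = t * (m * e.2 + n * f.2) → m = 0 ∧ n = 0) ∧
    (∀ s, X.Hopf (X.comp s) → 0 < X.b s → X.a s ≠ t * X.b s ∧ X.a s + X.len s ≠ t * X.b s) ∧
    (∀ c z h, X.OnEnd c z → 0 < h → X.Clear t c z h → ¬ X.OnEnd c (fwd t z h)))}.Countable

/-- EXC2. Countably many directions have a saddle connection that crosses slits. -/
def T_EXC2 : Prop := ∀ (C S : Type) [Finite S] (X : Data C S), X.Surface →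
  {t | ∃ (s : S) (ξ : ℝ) (n : ℕ) (y : S × ℝ), ξ ∈ Ioo (0 : ℝ) 1 ∧ X.EndB t (s, ξ) ∧
    X.HC t n (s, ξ) y ∧ X.EndA t y}.Countable

/-- EXC. All but countably many directions are good. -/
def T_EXC : Prop := ∀ (C S : Type) [Finite C] [Finite S] (X : Data C S), X.Surface →
  {t | ¬ X.Tgood t}.Countable

/-- NAE. Almost every direction is nice. -/
def T_NAE : Prop := ∀ (C S : Type) [Finite C] [Finite S] (X : Data C S) (w : S → ℝ),
  X.Surface → X.Upper → X.Wt w → ∀ᵐ t, X.Nice t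

/-- COT. Null sets and the cotangent. -/
def T_COT : Prop := ∀ N : Set ℝ, volume N = 0 → volume {θ : ℝ | Real.cos θ / Real.sin θ ∈ N} = 0

/-- MAIN. -/
def T_MAIN : Prop := ∀ (C S : Type) [Finite C] [Finite S] (X : Data C S), X.Surface → X.Upper →
  X.Contracting → ∀ᵐ θ : ℝ, X.MorseSmale (Real.cos θ / Real.sin θ)

end DS
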