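import Pool.Agent.H8.DS.Geo2

/-!
Targets of the geometric part (MP_81a758_an).
-/

namespace DS

open Set Data

/-- LOCF. Local finiteness of the lifts of a slit. -/
def T_LOCF : Prop := ∀ (C S : Type) (X : Data C S), X.Surface → ∀ (s : S) (r R : ℝ), 0 < r →
  {g | g ∈ X.deck (X.comp s) ∧ ∃ ξ ∈ Icc (0 : ℝ) 1, |(act g (X.pt s ξ)).1| ≤ R ∧
    |(act g (X.pt s ξ)).2| ≤ R ∧ (X.Hopf (X.comp s) →
      r ≤ |(act g (X.pt s ξ)).1| ∨ r ≤ |(act g (X.pt s ξ)).2|)}.Finite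

/-- SLU. Uniqueness of the slit coordinates. -/
def T_SLU : Prop := ∀ (C S : Type) (X : Data C S), X.Surface → ∀ (s s' : S), X.comp s = X.comp s' →
  ∀ g ∈ X.deck (X.comp s), ∀ g' ∈ X.deck (X.comp s), ∀ ξ ∈ Icc (0 : ℝ) 1, ∀ ξ' ∈ Icc (0 : ℝ) 1,
  act g (X.pt s ξ) = act g' (X.pt s' ξ') → s = s' ∧ g = g' ∧ ξ = ξ'

/-- EQV. Equivariance. -/
def T_EQV : Prop := ∀ (C S : Type) (X : Data C S), X.Surface → ∀ (c : C), ∀ g ∈ X.deck c,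
  ∀ z : ℝ × ℝ, (X.OnSlit c (act g z) ↔ X.OnSlit c z) ∧ (X.OnEnd c (act g z) ↔ X.OnEnd c z) ∧
    (X.Pure c (act g z) ↔ X.Pure c z) ∧ (X.Valid c (act g z) ↔ X.Valid c z) ∧
    ∀ t h, (X.Clear t c (act g z) (g.1 * h) ↔ X.Clear t c z h)

/-- ISOL. Near `z` only the slit through `z`. -/
def T_ISOL : Prop := ∀ (C S : Type) [Finite S] (X : Data C S), X.Surface → ∀ (c : C) (z : ℝ × ℝ),
  (X.Hopf c → z ≠ 0) → ∃ δ > 0, ∀ z' : ℝ × ℝ, |z'.1 - z.1| < δ → |z'.2 - z.2| < δ →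
    ¬ X.Pure c z' → ∃ s, X.comp s = c ∧ ∃ g ∈ X.deck c, ∃ ξ ∈ Icc (0 : ℝ) 1,
      ∃ ξ' ∈ Icc (0 : ℝ) 1, z = act g (X.pt s ξ) ∧ z' = act g (X.pt s ξ')

/-- UPZ. The first event above a point. -/
def T_UPZ : Prop := ∀ (C S : Type) [Finite S] (X : Data C S), X.Surface → ∀ (t : ℝ) (c : C)
  (z : ℝ × ℝ), (X.Hopf c → z ≠ 0) →
  (∀ k > 0, X.Pure c (fwd t z k)) ∨
  (∃ s, X.comp s = c ∧ ∃ g ∈ X.deck c, ∃ ξ ∈ Ioo (0 : ℝ) 1, ∃ h > 0, X.Clear t c z h ∧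
    fwd t z h = act g (X.pt s ξ)) ∨
  (∃ h > 0, X.Clear t c z h ∧ X.OnEnd c (fwd t z h)) ∨
  (X.Hopf c ∧ ∃ h > 0, X.Clear t c z h ∧ fwd t z h = 0)

/-- DNZ. The first event below a point. -/
def T_DNZ : Prop := ∀ (C S : Type) [Finite S] (X : Data C S), X.Surface → ∀ (t : ℝ) (c : C)
  (z : ℝ × ℝ), (X.Hopf c → z ≠ 0) →
  (∀ k > 0, X.Pure c (fwd t z (-k))) ∨
  (∃ s, X.comp s = c ∧ ∃ g ∈ X.deck c, ∃ ξ ∈ Ioo (0 : ℝ) 1, ∃ h > 0,
    X.Clear t c (act g (X.pt s ξ)) h ∧ z = fwd t (act g (X.pt s ξ)) h) ∨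
  (∃ w, ∃ h > 0, X.OnEnd c w ∧ X.Clear t c w h ∧ z = fwd t w h) ∨
  (X.Hopf c ∧ ∃ h > 0, X.Clear t c 0 h ∧ z = fwd t 0 h)

/-- TUBE. A clear segment stays clear when it is moved a little. -/
def T_TUBE : Prop := ∀ (C S : Type) [Finite S] (X : Data C S), X.Surface → ∀ (t : ℝ) (c : C)
  (z : ℝ × ℝ) (h : ℝ), (X.Hopf c → z ≠ 0 ∧ fwd t z h ≠ 0) → X.Clear t c z h →
  ∃ ε > 0, ∀ δ, |δ| < ε → X.Clear t c (z.1 + δ, z.2) h

/-- FL. Lattice points in boxes, in an irrational direction. -/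
def T_FL : Prop := ∀ (e f : ℝ × ℝ) (t : ℝ), e.1 * f.2 - e.2 * f.1 ≠ 0 →
  (∀ m n : ℤ, m * e.1 + n * f.1 = t * (m * e.2 + n * f.2) → m = 0 ∧ n = 0) →
  ∀ δ > 0, ∃ H > 0, ∀ u v : ℝ, ∃ m n : ℤ,
    (m * e.1 + n * f.1) - t * (m * e.2 + n * f.2) ∈ Ioo u (u + δ) ∧
    (m * e.2 + n * f.2) ∈ Ioo v (v + H)

/-- IRR. In a flat torus every segment of some height meets the interior of a given slit, for all
directions near a given irrational one. -/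
def T_IRR : Prop := ∀ (C S : Type) (X : Data C S), X.Surface → ∀ (s : S) (t₀ : ℝ),
  ¬ X.Hopf (X.comp s) → (∀ c e f, X.kind c = .flat e f → ∀ m n : ℤ,
    m * e.1 + n * f.1 = t₀ * (m * e.2 + n * f.2) → m = 0 ∧ n = 0) →
  ∃ H > 0, ∃ ε > 0, ∀ t, |t - t₀| < ε → ∀ z : ℝ × ℝ, ∃ h ∈ Ioo (0 : ℝ) H,
    ∃ g ∈ X.deck (X.comp s), ∃ η ∈ Ioo (0 : ℝ) 1, fwd t z h = act g (X.pt s η)

/-- SLC. Every flat torus carries a slit. -/
def T_SLC : Prop := ∀ (C S : Type) (X : Data C S), X.Surface → ∀ c, ¬ X.Hopf c →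
  ∃ s, X.comp s = c

/-- UPF. In a flat torus and a good direction there is always a slit above and below. -/
def T_UPF : Prop := ∀ (C S : Type) (X : Data C S), X.Surface → ∀ t, X.Tgood t →
  ∀ (c : C), ¬ X.Hopf c → ∀ z : ℝ × ℝ, (∃ k > 0, ¬ X.Pure c (fwd t z k)) ∧
    ∃ k > 0, ¬ X.Pure c (fwd t z (-k))

/-- HOPFB. In a Hopf torus all slits have height `0`, or all have positive height. -/
def T_HOPFB : Prop := ∀ (C S : Type) (X : Data C S) (w : S → ℝ), X.Surface → X.Upper → X.Wt w →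
  ∀ s s', X.comp s = X.comp s' → X.Hopf (X.comp s) → X.b s = 0 → X.b s' = 0

/-- NEG. The lower half plane of a Hopf torus is off the slits. -/
def T_NEG : Prop := ∀ (C S : Type) (X : Data C S), X.Surface → X.Upper → ∀ c, X.Hopf c →
  ∀ z : ℝ × ℝ, z.2 < 0 → X.Pure c z

/-- HITD. The first return relation is deterministic in both directions. -/
def T_HITD : Prop := ∀ (C S : Type) (X : Data C S), X.Surface → ∀ (t : ℝ) (y y₁ y₂ : S × ℝ),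
  (X.Hit t y y₁ → X.Hit t y y₂ → y₁ = y₂) ∧ (X.Hit t y₁ y → X.Hit t y₂ y → y₁ = y₂)

/-- HEX. First return, forward and backward, in flat tori. -/
def T_HEX : Prop := ∀ (C S : Type) [Finite S] (X : Data C S), X.Surface → ∀ t, X.Tgood t →
  ∀ y : S × ℝ, y.2 ∈ Ioo (0 : ℝ) 1 →
  (¬ X.Hopf (X.comp (X.glue y.1)) → (∃ y', X.Hit t y y') ∨ X.EndA t y) ∧
  (¬ X.Hopf (X.comp y.1) → (∃ y', X.Hit t y' y) ∨ X.EndB t y)

/-- HEND. A point with a first return does not run into an end point, and dually. -/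
def T_HEND : Prop := ∀ (C S : Type) (X : Data C S), X.Surface → ∀ t (y y' : S × ℝ),
  X.Hit t y y' → ¬ X.EndA t y ∧ ¬ X.EndB t y'

/-- OPEN. The first return relation is locally affine. -/
def T_OPEN : Prop := ∀ (C S : Type) [Finite S] (X : Data C S), X.Surface → ∀ (t : ℝ)
  (y y' : S × ℝ), X.Hit t y y' → ∃ α > 0, ∃ ε > 0, ∀ δ, |δ| < ε →
    X.Hit t (y.1, y.2 + δ) (y'.1, y'.2 + α * δ)

/-- START. Uniqueness of the start. -/
def T_START : Prop := ∀ (C S : Type) (X : Data C S), X.Surface → ∀ (P : C × ℝ × ℝ) c z r c' z' r',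
  X.Start P c z r → X.Start P c' z' r' → c = c' ∧ z = z' ∧ r = r'

/-- STEX. Existence of the start at a valid point. -/
def T_STEX : Prop := ∀ (C S : Type) (X : Data C S), X.Surface → ∀ (P : C × ℝ × ℝ),
  X.Valid P.1 P.2 → ∃ c z r, X.Start P c z r ∧ (X.Hopf c → z ≠ 0) ∧ 0 < r

/-- EQS. Steps and the deck groups. -/
def T_EQS : Prop := ∀ (C S : Type) (X : Data C S), X.Surface → ∀ (t : ℝ) (P Q : C × ℝ × ℝ) (m : ℝ),
  X.Step t P Q m →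
  (∀ g ∈ X.deck P.1, X.Step t (P.1, act g P.2) Q (m / g.1)) ∧
  (∀ g ∈ X.deck Q.1, X.Step t P (Q.1, act g Q.2) (m * g.1)) ∧ X.Valid Q.1 Q.2 ∧
    X.Valid P.1 P.2 ∧ 0 < m

/-- EQR. Leaves and the deck groups. -/
def T_EQR : Prop := ∀ (C S : Type) (X : Data C S), X.Surface → ∀ (t : ℝ) (P P' Q Q' : C × ℝ × ℝ),
  X.Same P P' → X.Same Q Q' → X.Leaf t P Q → X.Leaf t P' Q'

/-- TRANS. Leaves can be composed. -/
def T_TRANS : Prop := ∀ (C S : Type) (X : Data C S) (t : ℝ) (P Q R : C × ℝ × ℝ) (m n : ℝ),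
  X.Reach t P Q m → X.Reach t Q R n → X.Reach t P R (m * n)

/-- SAMEEQ. `Same` is an equivalence relation. -/
def T_SAMEEQ : Prop := ∀ (C S : Type) (X : Data C S), X.Surface → Equivalence X.Same

/-- SC. Two steps from one point are comparable. -/
def T_SC : Prop := ∀ (C S : Type) (X : Data C S), X.Surface → ∀ (t : ℝ) (M P Q : C × ℝ × ℝ) m n,
  X.Step t M P m → X.Step t M Q n → X.Same P Q ∨ (∃ k, X.Step t P Q k) ∨ ∃ k, X.Step t Q P k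

/-- SCB. Two steps to one point are comparable. -/
def T_SCB : Prop := ∀ (C S : Type) (X : Data C S), X.Surface → ∀ (t : ℝ) (M P Q : C × ℝ × ℝ) m n,
  X.Step t P M m → X.Step t Q M n → X.Same P Q ∨ (∃ k, X.Step t P Q k) ∨ ∃ k, X.Step t Q P k

/-- CMP. Two points above a point of a leaf are comparable. -/
def T_CMP : Prop := ∀ (C S : Type) (X : Data C S), X.Surface → ∀ (t : ℝ) (M P Q : C × ℝ × ℝ),
  X.Leaf t M P → X.Leaf t M Q → X.Same P Q ∨ X.Leaf t P Q ∨ X.Leaf t Q P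

/-- CMPB. Two points below a point of a leaf are comparable. -/
def T_CMPB : Prop := ∀ (C S : Type) (X : Data C S), X.Surface → ∀ (t : ℝ) (M P Q : C × ℝ × ℝ),
  X.Leaf t P M → X.Leaf t Q M → X.Same P Q ∨ X.Leaf t P Q ∨ X.Leaf t Q P

/-- NXU. There is always a further point, above and below. -/
def T_NXU : Prop := ∀ (C S : Type) [Finite S] (X : Data C S), X.Surface → ∀ (t : ℝ)
  (P : C × ℝ × ℝ), X.Valid P.1 P.2 → (∃ Q m, X.Step t P Q m) ∧ ∃ Q m, X.Step t Q P m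

/-- DIR. Two points above a point have a common further point. -/
def T_DIR : Prop := ∀ (C S : Type) [Finite S] (X : Data C S), X.Surface → ∀ (t : ℝ)
  (M P Q : C × ℝ × ℝ), X.Valid M.1 M.2 → (P = M ∨ X.Leaf t M P) → (Q = M ∨ X.Leaf t M Q) →
  ∃ R, X.Leaf t P R ∧ X.Leaf t Q R

/-- DIRB. Two points below a point have a common point below both. -/
def T_DIRB : Prop := ∀ (C S : Type) [Finite S] (X : Data C S), X.Surface → ∀ (t : ℝ)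
  (M P Q : C × ℝ × ℝ), X.Valid M.1 M.2 → (P = M ∨ X.Leaf t P M) → (Q = M ∨ X.Leaf t Q M) →
  ∃ R, X.Leaf t R P ∧ X.Leaf t R Q

/-- HS. First returns are steps between slit points. -/
def T_HS : Prop := ∀ (C S : Type) (X : Data C S), X.Surface → ∀ (t : ℝ) (y y' : S × ℝ),
  y.2 ∈ Ioo (0 : ℝ) 1 → y'.2 ∈ Ioo (0 : ℝ) 1 →
  (X.Hit t y y' ↔ ∃ m, X.Step t (X.sp y) (X.sp y') m)

/-- FAC. The derivative of a first return in terms of the weights. -/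
def T_FAC : Prop := ∀ (C S : Type) (X : Data C S) (w : S → ℝ), X.Surface → X.Wt w →
  ∀ (t : ℝ) (y y' : S × ℝ) (m : ℝ), y.2 ∈ Ioo (0 : ℝ) 1 → y'.2 ∈ Ioo (0 : ℝ) 1 →
  X.Step t (X.sp y) (X.sp y') m → m * w y.1 ≤ w y'.1 ∧
    (X.Hopf (X.comp (X.glue y.1)) → m * w y.1 < w y'.1)

/-- STSL. A step that reaches a slit, a step that starts at a slit. -/
def T_STSL : Prop := ∀ (C S : Type) (X : Data C S), X.Surface → ∀ (t : ℝ),
  (∀ (P : C × ℝ × ℝ) c z r h s g ξ, X.Start P c z r → 0 < h → X.Clear t c z h → X.comp s = c →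
    g ∈ X.deck c → ξ ∈ Ioo (0 : ℝ) 1 → fwd t z h = act g (X.pt s ξ) →
    ∃ m, X.Step t P (X.sp (s, ξ)) m) ∧
  (∀ (P : C × ℝ × ℝ) s g ξ h, X.comp s = P.1 → g ∈ X.deck P.1 → ξ ∈ Ioo (0 : ℝ) 1 → 0 < h →
    X.Clear t P.1 (act g (X.pt s ξ)) h → P.2 = fwd t (act g (X.pt s ξ)) h → X.Valid P.1 P.2 →
    ∃ m, X.Step t (X.sp (X.glue.symm s, ξ)) P m)

/-- NF. Normal form of a piece of a leaf. -/
def T_NF : Prop := ∀ (C S : Type) (X : Data C S), X.Surface → ∀ (t : ℝ) (P Q : C × ℝ × ℝ) (m : ℝ),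
  X.Reach t P Q m → X.Step t P Q m ∨ ∃ (y y' : S × ℝ) (n : ℕ) (m₁ m₂ m₃ : ℝ),
    y.2 ∈ Ioo (0 : ℝ) 1 ∧ y'.2 ∈ Ioo (0 : ℝ) 1 ∧ X.Step t P (X.sp y) m₁ ∧ X.Ch t n y y' m₂ ∧
    X.Step t (X.sp y') Q m₃ ∧ m = m₁ * m₂ * m₃

/-- CHHC. Chains of steps and chains of first returns. -/
def T_CHHC : Prop := ∀ (C S : Type) (X : Data C S), X.Surface → ∀ (t : ℝ) (n : ℕ) (y y' : S × ℝ),
  y.2 ∈ Ioo (0 : ℝ) 1 → ((∃ m, X.Ch t n y y' m) ↔ X.HC t n y y') ∧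
    (0 < n → X.HC t n y y' → X.Leaf t (X.sp y) (X.sp y'))

/-- CL1. Closed leaves that consist of one piece. -/
def T_CL1 : Prop := ∀ (C S : Type) (X : Data C S), X.Surface → X.Upper → ∀ t, X.Tgood t →
  ∀ (P : C × ℝ × ℝ) m, X.Step t P P m →
  (∃ y : S × ℝ, y.2 ∈ Ioo (0 : ℝ) 1 ∧ X.Same P (X.sp y) ∧ X.Ch t 1 y y m) ∨
  (X.Hopf P.1 ∧ m ≠ 1 ∧ ∃ k : ℝ, P.2 = (k * t, k) ∧
    (k < 0 ∨ (0 < k ∧ ∀ k' > 0, X.Pure P.1 (k' * t, k'))))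

/-- CL. Classification of the closed leaves. -/
def T_CL : Prop := ∀ (C S : Type) (X : Data C S), X.Surface → X.Upper → ∀ t, X.Tgood t →
  ∀ (P : C × ℝ × ℝ) m, X.Reach t P P m →
  (∃ (y : S × ℝ) (n : ℕ), y.2 ∈ Ioo (0 : ℝ) 1 ∧ X.Leaf t P (X.sp y) ∧ 0 < n ∧
    X.Ch t n y y m) ∨
  (X.Hopf P.1 ∧ m ≠ 1 ∧ ∃ k : ℝ, P.2 = (k * t, k) ∧
    (k < 0 ∨ (0 < k ∧ ∀ k' > 0, X.Pure P.1 (k' * t, k'))))

/-- LOOP. Periodic orbits of the first return are contracting. -/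
def T_LOOP : Prop := ∀ (C S : Type) (X : Data C S) (w : S → ℝ), X.Surface → X.Wt w →
  ∀ (t : ℝ), (∃ n, ∀ y y', ¬ X.FC t n y y') → ∀ (y : S × ℝ) (n : ℕ) (m : ℝ),
  y.2 ∈ Ioo (0 : ℝ) 1 → 0 < n → X.Ch t n y y m → m < 1

/-- RAY. Rays without slits in a Hopf torus. -/
def T_RAY : Prop := ∀ (C S : Type) (X : Data C S), X.Surface → ∀ (t : ℝ) (c : C), X.Hopf c →
  ∀ σ : ℝ, σ = 1 ∨ σ = -1 → (∀ k > 0, X.Pure c (σ * k * t, σ * k)) → ∀ k > 0, ∀ k' > 0,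
    X.Leaf t (c, σ * k * t, σ * k) (c, σ * k' * t, σ * k')

/-- ESCU. Upward escape in a Hopf torus. -/
def T_ESCU : Prop := ∀ (C S : Type) (X : Data C S), X.Surface → X.Upper → ∀ t, X.Tgood t →
  ∀ (c : C), X.Hopf c → ∀ z : ℝ × ℝ, (∀ k > 0, X.Pure c (fwd t z k)) →
  (∀ k > 0, X.Pure c (k * t, k)) ∧
  ∀ ε > 0, ∃ h > 0, ∃ g ∈ X.deck c, Near ε (c, act g (fwd t z h)) (c, t, 1)

/-- ESCD. Downward escape in a Hopf torus. -/
def T_ESCD : Prop := ∀ (C S : Type) (X : Data C S), X.Surface → ∀ (t : ℝ) (c : C), X.Hopf c →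
  ∀ z : ℝ × ℝ, ∀ ε > 0, ∃ h > 0, ∃ g ∈ X.deck c,
    Near ε (c, act g (fwd t z (-h))) (c, -t, -1)

/-- RAY0. In a Hopf torus, a segment from the origin that meets no slit lies in a ray that meets
no slit. -/
def T_RAY0 : Prop := ∀ (C S : Type) (X : Data C S), X.Surface → ∀ (t : ℝ) (c : C), X.Hopf c →
  ∀ h > 0, X.Clear t c 0 h → ∀ k > 0, X.Pure c (k * t, k)

/-- MID. The first hit above a slit point. -/
def T_MID : Prop := ∀ (C S : Type) (X : Data C S), X.Surface → ∀ (t : ℝ) (y y' : S × ℝ),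
  X.Hit t y y' → 0 < X.up t y ∧
    X.Clear t (X.comp (X.glue y.1)) (X.pt (X.glue y.1) y.2) (X.up t y) ∧
    X.Pure (X.mid t y).1 (X.mid t y).2 ∧ (∃ m, X.Step t (X.sp y) (X.mid t y) m) ∧
    ∃ m, X.Step t (X.mid t y) (X.sp y') m

/-- MIDN. Slit points near `y` have leaves that pass near `mid y`. -/
def T_MIDN : Prop := ∀ (C S : Type) [Finite S] (X : Data C S), X.Surface → ∀ (t : ℝ)
  (y y' : S × ℝ), X.Hit t y y' → ∀ ε > 0, ∃ δ > 0, ∀ ξ, |ξ - y.2| < δ →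
    ∃ R m, X.Step t (X.sp (y.1, ξ)) R m ∧ Near ε R (X.mid t y)

/-- FW. Every half leaf comes near to the closed leaves. -/
def T_FW : Prop := ∀ (C S : Type) [Finite S] (X : Data C S), X.Surface → X.Upper →
  ∀ t, X.Tgood t → X.Nice t → ∀ P : C × ℝ × ℝ, X.Valid P.1 P.2 → X.InfAbove t P → ∀ ε > 0,
  ∃ Q ∈ X.FS t, ∃ R, X.Leaf t P R ∧ Near ε R Q

/-- BW. The same downwards. -/
def T_BW : Prop := ∀ (C S : Type) [Finite S] (X : Data C S), X.Surface → X.Upper →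
  ∀ t, X.Tgood t → X.Nice t → ∀ P : C × ℝ × ℝ, X.Valid P.1 P.2 → X.InfBelow t P → ∀ ε > 0,
  ∃ Q ∈ X.FS t, ∃ R, X.Leaf t R P ∧ Near ε R Q

/-- ACC. From visits near a finite set to accumulation at one point. -/
def T_ACC : Prop := ∀ (C S : Type) [Finite S] (X : Data C S), X.Surface → ∀ (t : ℝ)
  (P : C × ℝ × ℝ) (F : Set (C × ℝ × ℝ)), F.Finite → X.Valid P.1 P.2 →
  ((∀ R, (R = P ∨ X.Leaf t P R) → ∀ ε > 0, ∃ Q ∈ F, ∃ R', X.Leaf t R R' ∧ Near ε R' Q) →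
    ∃ Q ∈ F, X.AccAbove t P Q) ∧
  ((∀ R, (R = P ∨ X.Leaf t R P) → ∀ ε > 0, ∃ Q ∈ F, ∃ R', X.Leaf t R' R ∧ Near ε R' Q) →
    ∃ Q ∈ F, X.AccBelow t P Q)

/-- FSOK. The set `FS`: finite, nonempty, off the slits, on closed leaves, and it meets every
closed leaf. -/
def T_FSOK : Prop := ∀ (C S : Type) [Finite C] [Finite S] (X : Data C S), X.Surface → X.Upper →
  ∀ t, X.Tgood t → X.Nice t → (X.FS t).Finite ∧ (X.FS t).Nonempty ∧
    (∀ Q ∈ X.FS t, X.Pure Q.1 Q.2 ∧ X.ClosedAt t Q) ∧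
    (∀ P, X.ClosedAt t P → ∃ Q ∈ X.FS t, ∃ m, X.Reach t P Q m)

/-- GEO. A nice good direction is Morse-Smale. -/
def T_GEO : Prop := ∀ (C S : Type) [Finite C] [Finite S] (X : Data C S) (w : S → ℝ), X.Surface →
  X.Upper → X.Wt w → ∀ t, X.Tgood t → X.Nice t → X.MorseSmale t

end DS
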