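import Mathlib

/-!
Abstract part: finite systems of partial affine maps between unit intervals, and one-parameter
families of such systems.
-/

namespace DS

open Set

/-- A finite system of partial increasing affine maps `x ↦ al b * x + c b`, defined on the
interval `D b ⊆ (0,1)` of the slit `src b` and with values in the slit `tgt b`. Points are pairs
`(s, x)`. The system is deterministic in both directions. -/
structure Sys (S B : Type) where
  src : B → S
  tgt : B → S
  D : B → Set ℝ
  al : B → ℝ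
  c : B → ℝ
  ord : ∀ b, (D b).OrdConnected
  al_pos : ∀ b, 0 < al b
  dom : ∀ b, ∀ x ∈ D b, x ∈ Ioo (0 : ℝ) 1 ∧ al b * x + c b ∈ Ioo (0 : ℝ) 1
  det : ∀ b b' x, src b = src b' → x ∈ D b → x ∈ D b' → b = b'
  inj : ∀ b b' x x', tgt b = tgt b' → x ∈ D b → x' ∈ D b' →
    al b * x + c b = al b' * x' + c b' → b = b'

variable {S B : Type}

namespace Sys

/-- The word `w` of branches leads from `y` to `y'`. -/
def Go (Y : Sys S B) : List B → S × ℝ → S × ℝ → Prop
  | [], y, y' => y = y'
  | b :: w, y, y' => Y.src b = y.1 ∧ y.2 ∈ Y.D b ∧ Y.Go w (Y.tgt b, Y.al b * y.2 + Y.c b) y'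

/-- The slope of the composition along `w`. -/
def wal (Y : Sys S B) : List B → ℝ
  | [] => 1
  | b :: w => Y.wal w * Y.al b

/-- The constant term of the composition along `w`. -/
def wc (Y : Sys S B) : List B → ℝ
  | [] => 0
  | b :: w => Y.wal w * Y.c b + Y.wc w

/-- The inverse system. -/
noncomputable def rev (Y : Sys S B) : Sys S B where
  src := Y.tgt
  tgt := Y.src
  D b := (fun x => Y.al b * x + Y.c b) '' Y.D b
  al b := (Y.al b)⁻¹
  c b := -(Y.c b) / Y.al b
  ord b := by
    have := (Y.ord b)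
    constructor
    rintro _ ⟨x, hx, rfl⟩ _ ⟨y, hy, rfl⟩ z ⟨hz1, hz2⟩
    have ha := Y.al_pos b
    refine ⟨(z - Y.c b) / Y.al b, this.out hx hy ⟨?_, ?_⟩, ?_⟩
    · rw [le_div_iff₀ ha]; simp only at hz1; linarith
    · rw [div_le_iff₀ ha]; simp only at hz2; linarith
    · field_simp; ring
  al_pos b := inv_pos.2 (Y.al_pos b)
  dom := by
    rintro b _ ⟨x, hx, rfl⟩
    have ha := (Y.al_pos b).ne'
    refine ⟨(Y.dom b x hx).2, ?_⟩
    have : (Y.al b)⁻¹ * (Y.al b * x + Y.c b) + -(Y.c b) / Y.al b = x := by field_simp; ring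
    simp only [this]
    exact (Y.dom b x hx).1
  det := by
    rintro b b' _ hs ⟨x, hx, rfl⟩ ⟨x', hx', he⟩
    exact Y.inj b b' x x' hs hx hx' he.symm
  inj := by
    rintro b b' _ _ ht ⟨x, hx, rfl⟩ ⟨x', hx', rfl⟩ he
    have ha := (Y.al_pos b).ne'
    have ha' := (Y.al_pos b').ne'
    have h1 : (Y.al b)⁻¹ * (Y.al b * x + Y.c b) + -(Y.c b) / Y.al b = x := by field_simp; ring
    have h2 : (Y.al b')⁻¹ * (Y.al b' * x' + Y.c b') + -(Y.c b') / Y.al b' = x' := by
      field_simp; ring
    simp only [h1, h2] at he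
    subst he
    exact Y.det b b' x ht hx hx'

/-- The word has at least one pair of end points. -/
def Occ (Y : Sys S B) (w : List B) : Prop := ∃ y y', Y.Go w y y'

/-- The affine image intervals of the words of length `n` avoid the break points. -/
def Good (Y : Sys S B) (br : S → Set ℝ) (n : ℕ) : Prop :=
  ∀ w : List B, w.length = n → ∀ y y', Y.Go w y y' →
    ∀ x ∈ br y'.1, x ∉ Icc (Y.wc w) (Y.wc w + Y.wal w)

/-- A contracting system: `mw` are positive scales of the slits, no branch expands, every word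
of length `L` contracts by the factor `ρ`; `br` are the break points (with `0` and `1`), between
which there is one branch, or none. -/
structure Ctr (Y : Sys S B) (mw : S → ℝ) (L : ℕ) (ρ : ℝ) (br : S → Set ℝ) : Prop where
  mpos : ∀ s, 0 < mw s
  nonexp : ∀ b, Y.al b * mw (Y.tgt b) ≤ mw (Y.src b)
  Lpos : 0 < L
  ρ0 : 0 < ρ
  ρ1 : ρ < 1
  contr : ∀ w : List B, w.length = L → ∀ y y', Y.Go w y y' → Y.wal w * mw y'.1 ≤ ρ * mw y.1
  br0 : ∀ s, (0 : ℝ) ∈ br s
  br1 : ∀ s, (1 : ℝ) ∈ br s
  piece : ∀ s u v, u ≤ v → Icc u v ⊆ Ioo (0 : ℝ) 1 → Disjoint (Icc u v) (br s) →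
    (∃ b, Y.src b = s ∧ Icc u v ⊆ Y.D b) ∨ ∀ b, Y.src b = s → Disjoint (Icc u v) (Y.D b)

theorem wal_pos (Y : Sys S B) (w : List B) : 0 < Y.wal w := by
  induction w with
  | nil => simp [wal]
  | cons b w ih => exact mul_pos ih (Y.al_pos b)

theorem wal_append (Y : Sys S B) (u v : List B) : Y.wal (u ++ v) = Y.wal v * Y.wal u := by
  induction u with
  | nil => simp [wal]
  | cons b u ih => simp only [List.cons_append, wal, ih]; ring

theorem wc_append (Y : Sys S B) (u v : List B) :
    Y.wc (u ++ v) = Y.wal v * Y.wc u + Y.wc v := by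
  induction u with
  | nil => simp [wc]
  | cons b u ih => simp only [List.cons_append, wc, ih, wal_append]; ring

theorem Go_append (Y : Sys S B) (u v : List B) (y y'' : S × ℝ) :
    Y.Go (u ++ v) y y'' ↔ ∃ y', Y.Go u y y' ∧ Y.Go v y' y'' := by
  induction u generalizing y with
  | nil => simp [Go]
  | cons b u ih =>
    simp only [List.cons_append, Go, ih]
    constructor
    · rintro ⟨h1, h2, y', h3, h4⟩; exact ⟨y', ⟨h1, h2, h3⟩, h4⟩
    · rintro ⟨y', ⟨h1, h2, h3⟩, h4⟩; exact ⟨h1, h2, y', h3, h4⟩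

theorem Go_single (Y : Sys S B) (b : B) (y y' : S × ℝ) :
    Y.Go [b] y y' ↔ Y.src b = y.1 ∧ y.2 ∈ Y.D b ∧ (Y.tgt b, Y.al b * y.2 + Y.c b) = y' := by
  simp [Go]

/-- Along a word the end point is an affine function of the starting point. -/
theorem Go_val (Y : Sys S B) (w : List B) (y y' : S × ℝ) (h : Y.Go w y y') :
    y'.2 = Y.wal w * y.2 + Y.wc w := by
  induction w generalizing y with
  | nil => simp only [Go] at h; subst h; simp [wal, wc]
  | cons b w ih =>
    obtain ⟨_, _, h3⟩ := h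
    rw [ih _ h3]; simp only [wal, wc]; ring

theorem Go_fun (Y : Sys S B) (w : List B) (y y₁ y₂ : S × ℝ) (h₁ : Y.Go w y y₁)
    (h₂ : Y.Go w y y₂) : y₁ = y₂ := by
  induction w generalizing y with
  | nil => simp only [Go] at h₁ h₂; rw [← h₁, ← h₂]
  | cons b w ih => exact ih _ h₁.2.2 h₂.2.2

/-- The starting point determines the word of given length. -/
theorem Go_det (Y : Sys S B) (w w' : List B) (y y₁ y₂ : S × ℝ) (hl : w.length = w'.length)
    (h₁ : Y.Go w y y₁) (h₂ : Y.Go w' y y₂) : w = w' := by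
  induction w generalizing y w' with
  | nil => simp only [List.length_nil] at hl; exact (List.eq_nil_of_length_eq_zero hl.symm).symm
  | cons b w ih =>
    cases w' with
    | nil => simp at hl
    | cons b' w' =>
      obtain ⟨a1, a2, a3⟩ := h₁
      obtain ⟨b1, b2, b3⟩ := h₂
      have : b = b' := Y.det b b' y.2 (a1.trans b1.symm) a2 b2
      subst this
      rw [ih w' _ (by simpa using hl) a3 b3]

/-- The end point determines the word of given length and the starting point. -/
theorem Go_inj (Y : Sys S B) (w w' : List B) (y₁ y₂ y : S × ℝ) (hl : w.length = w'.length)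
    (h₁ : Y.Go w y₁ y) (h₂ : Y.Go w' y₂ y) : w = w' ∧ y₁ = y₂ := by
  induction w generalizing y₁ y₂ w' with
  | nil =>
    have := (List.eq_nil_of_length_eq_zero hl.symm)
    subst this
    simp only [Go] at h₁ h₂
    exact ⟨rfl, h₁.trans h₂.symm⟩
  | cons b w ih =>
    cases w' with
    | nil => simp at hl
    | cons b' w' =>
      obtain ⟨a1, a2, a3⟩ := h₁
      obtain ⟨b1, b2, b3⟩ := h₂
      obtain ⟨e1, e2⟩ := ih w' _ _ (by simpa using hl) a3 b3
      have e3 := congrArg Prod.fst e2
      have e4 := congrArg Prod.snd e2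
      simp only at e3 e4
      have : b = b' := Y.inj b b' _ _ e3 a2 b2 e4
      subst this
      refine ⟨by rw [e1], ?_⟩
      have h2 : y₁.2 = y₂.2 := by
        have := Y.al_pos b
        have h : Y.al b * y₁.2 = Y.al b * y₂.2 := by linarith
        exact mul_left_cancel₀ this.ne' h
      exact Prod.ext (a1.symm.trans b1) h2

/-- All points on the way are in the open unit interval, if the word is not empty. -/
theorem Go_mem (Y : Sys S B) (w : List B) (y y' : S × ℝ) (h : Y.Go w y y') (hw : w ≠ []) :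
    y.2 ∈ Ioo (0 : ℝ) 1 ∧ y'.2 ∈ Ioo (0 : ℝ) 1 := by
  induction w generalizing y with
  | nil => exact absurd rfl hw
  | cons b w ih =>
    obtain ⟨a1, a2, a3⟩ := h
    refine ⟨(Y.dom b _ a2).1, ?_⟩
    by_cases hw' : w = []
    · subst hw'; simp only [Go] at a3; subst a3; exact (Y.dom b _ a2).2
    · exact (ih _ a3 hw').2

/-- The starting points of a word form an interval. -/
theorem Go_ord (Y : Sys S B) (w : List B) (s : S) : {x | ∃ y', Y.Go w (s, x) y'}.OrdConnected := by
  induction w generalizing s with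
  | nil => simp only [Go]; convert ordConnected_univ; simp
  | cons b w ih =>
    constructor
    rintro x ⟨x', a1, a2, a3⟩ y ⟨y', b1, b2, b3⟩ z ⟨hz1, hz2⟩
    have hD : z ∈ Y.D b := (Y.ord b).out a2 b2 ⟨hz1, hz2⟩
    have ha := Y.al_pos b
    obtain ⟨z', hz'⟩ := (ih (Y.tgt b)).out (x := Y.al b * x + Y.c b) (y := Y.al b * y + Y.c b)
      ⟨x', a3⟩ ⟨y', b3⟩ (show Y.al b * z + Y.c b ∈ _ from
        ⟨by nlinarith [mul_le_mul_of_nonneg_left hz1 ha.le],
         by nlinarith [mul_le_mul_of_nonneg_left hz2 ha.le]⟩)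
    exact ⟨z', a1, hD, hz'⟩

end Sys

/-- A one-parameter family of systems: the branch `b` is defined on a convex set `D b` of pairs
`(t, x)` and given there by `x ↦ al b * x + be b * t + ga b`. -/
structure Fam (S B : Type) where
  lo : ℝ
  hi : ℝ
  src : B → S
  tgt : B → S
  D : B → Set (ℝ × ℝ)
  al : B → ℝ
  be : B → ℝ
  ga : B → ℝ
  conv : ∀ b, Convex ℝ (D b)
  al_pos : ∀ b, 0 < al b
  be_pos : ∀ b, 0 < be b
  dom : ∀ b t x, (t, x) ∈ D b → t ∈ Ioo lo hi ∧ x ∈ Ioo (0 : ℝ) 1 ∧
    al b * x + (be b * t + ga b) ∈ Ioo (0 : ℝ) 1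
  det : ∀ b b' t x, src b = src b' → (t, x) ∈ D b → (t, x) ∈ D b' → b = b'
  inj : ∀ b b' t x x', tgt b = tgt b' → (t, x) ∈ D b → (t, x') ∈ D b' →
    al b * x + (be b * t + ga b) = al b' * x' + (be b' * t + ga b') → b = b'

/-- The system of the parameter `t`. -/
def Fam.sys (F : Fam S B) (t : ℝ) : Sys S B where
  src := F.src
  tgt := F.tgt
  D b := {x | (t, x) ∈ F.D b}
  al := F.al
  c b := F.be b * t + F.ga b
  ord b := by
    have : Convex ℝ {x | (t, x) ∈ F.D b} := by
      intro x hx y hy p q hp hq hpq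
      have h := F.conv b hx hy hp hq hpq
      have h2 : p • ((t, x) : ℝ × ℝ) + q • ((t, y) : ℝ × ℝ) = (t, p • x + q • y) := by
        ext
        · simp only [Prod.fst_add, Prod.smul_fst, smul_eq_mul]; rw [← add_mul, hpq, one_mul]
        · simp
      rw [h2] at h
      exact h
    exact this.ordConnected
  al_pos := F.al_pos
  dom b x hx := ⟨(F.dom b t x hx).2.1, (F.dom b t x hx).2.2⟩
  det b b' x h1 h2 h3 := F.det b b' t x h1 h2 h3
  inj b b' x x' h1 h2 h3 h4 := F.inj b b' t x x' h1 h2 h3 h4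

end DS
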