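import Pool.Agent.H8.DS.TarG

/-!
# Module CMP of the board ds_modules
-/

set_option autoImplicit false

namespace DS

namespace H8CMP

open Set Data

variable {C S : Type}

/-- One step. -/
def R (X : Data C S) (t : ℝ) (P Q : C × ℝ × ℝ) : Prop := ∃ m, X.Step t P Q m

theorem leaf_of_gen (X : Data C S) (t : ℝ) (P Q : C × ℝ × ℝ) (h : Relation.TransGen (R X t) P Q) :
    X.Leaf t P Q := by
  induction h with
  | single h => obtain ⟨m, hm⟩ := h; exact ⟨m, Reach.step hm⟩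
  | tail _ h ih =>
    obtain ⟨m, hm⟩ := h
    obtain ⟨k, hk⟩ := ih
    exact ⟨_, Reach.tail hk hm⟩

theorem gen_of_reach (X : Data C S) (t : ℝ) (P Q : C × ℝ × ℝ) (a : ℝ) (h : X.Reach t P Q a) :
    Relation.TransGen (R X t) P Q := by
  induction h with
  | step h => exact Relation.TransGen.single ⟨_, h⟩
  | tail _ h ih => exact Relation.TransGen.tail ih ⟨_, h⟩

theorem aux (h1 : T_SC) (h2 : T_EQR) (h4 : T_SAMEEQ) (X : Data C S) (hX : X.Surface) (t : ℝ)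
    (N Q : C × ℝ × ℝ) (h : Relation.TransGen (R X t) N Q) : ∀ P : C × ℝ × ℝ,
    R X t N P → X.Same P Q ∨ X.Leaf t P Q ∨ X.Leaf t Q P := by
  have hE := h4 C S X hX
  induction h using Relation.TransGen.head_induction_on with
  | single h =>
    rintro P ⟨k, hs⟩
    obtain ⟨m, hm⟩ := h
    rcases h1 C S X hX t _ P Q _ _ hs hm with h5 | ⟨j, h5⟩ | ⟨j, h5⟩
    · exact Or.inl h5
    · exact Or.inr (Or.inl ⟨j, Reach.step h5⟩)
    · exact Or.inr (Or.inr ⟨j, Reach.step h5⟩)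
  | head h' h ih =>
    rintro P ⟨k, hs⟩
    obtain ⟨m, hm⟩ := h'
    rcases h1 C S X hX t _ P _ _ _ hs hm with h5 | ⟨j, h5⟩ | ⟨j, h5⟩
    · exact Or.inr (Or.inl (h2 C S X hX t _ _ _ _ (hE.symm h5) (hE.refl _)
        (leaf_of_gen X t _ _ h)))
    · exact Or.inr (Or.inl (leaf_of_gen X t _ _ (Relation.TransGen.head ⟨j, h5⟩ h)))
    · exact ih P ⟨j, h5⟩

theorem main (h1 : T_SC) (h2 : T_EQR) (h4 : T_SAMEEQ) (X : Data C S)
    (hX : X.Surface) (t : ℝ) (M P : C × ℝ × ℝ) (a : ℝ) (hr : X.Reach t M P a) :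
    ∀ (Q : C × ℝ × ℝ), X.Leaf t M Q → X.Same P Q ∨ X.Leaf t P Q ∨ X.Leaf t Q P := by
  have hE := h4 C S X hX
  induction hr with
  | step h =>
    rintro Q ⟨b, hq⟩
    exact aux h1 h2 h4 X hX t _ Q (gen_of_reach X t _ _ _ hq) _ ⟨_, h⟩
  | tail h h' ih =>
    rintro Q hq
    rcases ih Q hq with h5 | ⟨j, h5⟩ | ⟨j, h5⟩
    · exact Or.inr (Or.inr (h2 C S X hX t _ _ _ _ h5 (hE.refl _) ⟨_, Reach.step h'⟩))
    · exact aux h1 h2 h4 X hX t _ Q (gen_of_reach X t _ _ _ h5) _ ⟨_, h'⟩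
    · exact Or.inr (Or.inr ⟨_, Reach.tail h5 h'⟩)

end H8CMP

open Set Data

theorem pf_CMP' (h1 : T_SC) (h2 : T_EQR) (h4 : T_SAMEEQ) : T_CMP := by
  rintro C S X hX t M P Q ⟨a, ha⟩ hQ
  exact H8CMP.main h1 h2 h4 X hX t M P a ha Q hQ

end DS
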