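import Pool.Agent.H8.DS.TarA

/-!
# Module COUNT of the board ds_modules
-/

set_option autoImplicit false

namespace DS

namespace H8COUNT

open Set

theorem end_slit {S B : Type} (Y : Sys S B) (w : List B) (hw : w ≠ []) (z y z' y' : S × ℝ)
    (h : Y.Go w z y) (h' : Y.Go w z' y') : y'.1 = y.1 := by
  induction w generalizing z z' with
  | nil => exact absurd rfl hw
  | cons b w ih =>
    obtain ⟨a1, a2, a3⟩ := h
    obtain ⟨b1, b2, b3⟩ := h'
    by_cases hw' : w = []
    · subst hw'
      simp only [Sys.Go] at a3 b3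
      subst a3
      subst b3
      rfl
    · exact ih hw' _ _ a3 b3

theorem fin {S B : Type} [Finite B] (Y : Sys S B) (m : ℕ) :
    {w : List B | w.length = m ∧ Y.Occ w}.Finite :=
  (List.finite_length_eq B m).subset (fun _ h => h.1)

theorem step (h1 : T_PAIRS) (h2 : T_IMG) {S B : Type} [Finite B] (Y : Sys S B) (m : ℕ)
    (hm : 1 ≤ m) (ih : {w : List B | w.length = m ∧ Y.Occ w}.ncard ≤ m * Nat.card B) :
    {w : List B | w.length = m + 1 ∧ Y.Occ w}.ncard ≤ (m + 1) * Nat.card B := by
  classical
  set V : Set (List B) := {w : List B | w.length = m ∧ Y.Occ w} with hV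
  have hfin : V.Finite := fin Y m
  have : Finite V := hfin
  choose z y hy using fun u : V => u.2.2
  let p : V → S := fun u => (y u).1
  let I : V → Set ℝ := fun u => {x | ∃ z, Y.Go u.1 z (p u, x)}
  have key := h1 S V B p Y.src I Y.D (fun u => h2 S B Y u.1 (p u)) Y.ord
    (by
      intro u u' hp hne
      rw [Set.disjoint_left]
      rintro x ⟨a, ha⟩ ⟨a', ha'⟩
      apply hne
      rw [← hp] at ha'
      exact Subtype.ext (Y.Go_inj u.1 u'.1 _ _ _ (u.2.1.trans u'.2.1.symm) ha ha').1)
    (by
      intro b b' hs hne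
      rw [Set.disjoint_left]
      intro x hx hx'
      exact hne (Y.det b b' x hs hx hx'))
  set P : Set (V × B) := {x : V × B | p x.1 = Y.src x.2 ∧ (I x.1 ∩ Y.D x.2).Nonempty} with hP
  have hsub : {w : List B | w.length = m + 1 ∧ Y.Occ w} ⊆ (fun x : V × B => x.1.1 ++ [x.2]) '' P := by
    rintro w ⟨hl, yy, yy'', hgo⟩
    rcases List.eq_nil_or_concat w with h | ⟨u, b, h⟩
    · subst h
      simp at hl
    · rw [List.concat_eq_append] at h
      subst h
      rw [Y.Go_append] at hgo
      obtain ⟨y', g1, g2⟩ := hgo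
      rw [Y.Go_single] at g2
      have hlu : u.length = m := by
        rw [List.length_append] at hl
        simpa using hl
      have hune : u ≠ [] := by
        intro h
        subst h
        simp only [List.length_nil] at hlu
        omega
      have hu : u ∈ V := ⟨hlu, _, _, g1⟩
      have he : y'.1 = p ⟨u, hu⟩ := end_slit Y u hune _ _ _ _ (hy ⟨u, hu⟩) g1
      refine ⟨(⟨u, hu⟩, b), ⟨he.symm.trans g2.1.symm, y'.2, ⟨yy, ?_⟩, g2.2.1⟩, rfl⟩
      show Y.Go u yy (p ⟨u, hu⟩, y'.2)
      rw [← he]
      exact g1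
  have : Finite (V × B) := inferInstance
  have h3 : {w : List B | w.length = m + 1 ∧ Y.Occ w}.ncard ≤ P.ncard :=
    (Set.ncard_le_ncard hsub ((Set.toFinite P).image _)).trans
      (Set.ncard_image_le (Set.toFinite P))
  have h4 : Nat.card V = V.ncard := Nat.card_coe_set_eq V
  have h5 : V.ncard ≤ m * Nat.card B := ih
  calc {w : List B | w.length = m + 1 ∧ Y.Occ w}.ncard ≤ P.ncard := h3
    _ ≤ Nat.card V + Nat.card B := key
    _ ≤ m * Nat.card B + Nat.card B := by omega
    _ = (m + 1) * Nat.card B := by ring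

end H8COUNT

theorem pf_COUNT' (h1 : T_PAIRS) (h2 : T_IMG) : T_COUNT := by
  intro S B _ Y m hm
  induction m, hm using Nat.le_induction with
  | base =>
    have hsub : {w : List B | w.length = 1 ∧ Y.Occ w} ⊆ (fun b : B => [b]) '' Set.univ := by
      rintro w ⟨hl, _⟩
      obtain ⟨b, rfl⟩ := List.length_eq_one_iff.1 hl
      exact ⟨b, trivial, rfl⟩
    calc {w : List B | w.length = 1 ∧ Y.Occ w}.ncard
        ≤ ((fun b : B => [b]) '' Set.univ).ncard :=
          Set.ncard_le_ncard hsub ((Set.toFinite _).image _)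
      _ ≤ (Set.univ : Set B).ncard := Set.ncard_image_le (Set.toFinite _)
      _ = 1 * Nat.card B := by rw [Set.ncard_univ, one_mul]
  | succ m hm ih => exact H8COUNT.step h1 h2 Y m hm ih

end DS
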