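import Pool.Agent.H8.DS.Abs

/-!
Targets of the abstract part (MP_81a758_an).
-/

namespace DS

open Set MeasureTheory

/-- PAIRS. Two families of pairwise disjoint intervals: few pairs meet. -/
def T_PAIRS : Prop := ∀ (S ι κ : Type) [Finite ι] [Finite κ] (p : ι → S) (q : κ → S)
  (I : ι → Set ℝ) (J : κ → Set ℝ), (∀ i, (I i).OrdConnected) → (∀ j, (J j).OrdConnected) →
  (∀ i i', p i = p i' → i ≠ i' → Disjoint (I i) (I i')) →
  (∀ j j', q j = q j' → j ≠ j' → Disjoint (J j) (J j')) →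
  {x : ι × κ | p x.1 = q x.2 ∧ (I x.1 ∩ J x.2).Nonempty}.ncard ≤ Nat.card ι + Nat.card κ

/-- IMG. The end points of a word in a given slit form an interval. -/
def T_IMG : Prop := ∀ (S B : Type) (Y : Sys S B) (w : List B) (s : S),
  {x | ∃ z, Y.Go w z (s, x)}.OrdConnected

/-- COUNT. Few words of length `m` occur. -/
def T_COUNT : Prop := ∀ (S B : Type) [Finite B] (Y : Sys S B) (m : ℕ), 1 ≤ m →
  {w : List B | w.length = m ∧ Y.Occ w}.ncard ≤ m * Nat.card B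

/-- CONV. The parameters for which a word occurs form an interval. -/
def T_CONV : Prop := ∀ (S B : Type) (F : Fam S B) (w : List B), Convex ℝ {t | (F.sys t).Occ w}

/-- SMALL. Near almost every parameter only the words of that parameter occur. -/
def T_SMALL : Prop := ∀ (S B : Type) [Finite B] (F : Fam S B) (m : ℕ), ∃ E : Set ℝ,
  volume E = 0 ∧ ∀ t₀ ∉ E, ∃ ε > 0, ∀ t, |t - t₀| < ε → ∀ w : List B, w.length = m →
    (F.sys t).Occ w → (F.sys t₀).Occ w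

/-- CAT. The number of words of length `k m` if the words of length `m` are in `V`. -/
def T_CAT : Prop := ∀ (S B : Type) (F : Fam S B) (m k : ℕ) (I : Set ℝ) (V : Finset (List B)),
  (∀ t ∈ I, ∀ w : List B, w.length = m → (F.sys t).Occ w → w ∈ V) →
  {w : List B | w.length = k * m ∧ ∃ t ∈ I, (F.sys t).Occ w}.Finite ∧
  {w : List B | w.length = k * m ∧ ∃ t ∈ I, (F.sys t).Occ w}.ncard ≤ V.card ^ k

/-- MEAS. The image interval of one word meets a decreasing line for few parameters only. -/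
def T_MEAS : Prop := ∀ (S B : Type) (F : Fam S B) (w : List B) (kap : ℝ), w ≠ [] → 0 < kap →
  (∀ b, kap ≤ F.be b) → ∀ qa qb t₀ : ℝ, 0 ≤ qa →
  volume {t | qb - qa * t ∈ Icc ((F.sys t).wc w) ((F.sys t).wc w + (F.sys t).wal w)} ≤
    ENNReal.ofReal ((F.sys t₀).wal w / kap)

/-- SLOPE. Slopes of words. -/
def T_SLOPE : Prop := ∀ (S B : Type) (Y : Sys S B) (mw : S → ℝ) (L : ℕ) (ρ : ℝ),
  (∀ s, 0 < mw s) → (∀ b, Y.al b * mw (Y.tgt b) ≤ mw (Y.src b)) → 0 ≤ ρ →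
  (∀ w : List B, w.length = L → ∀ y y', Y.Go w y y' → Y.wal w * mw y'.1 ≤ ρ * mw y.1) →
  (∀ (w : List B) y y', Y.Go w y y' → Y.wal w * mw y'.1 ≤ mw y.1) ∧
  (∀ (k : ℕ) (w : List B) y y', w.length = k * L → Y.Go w y y' →
    Y.wal w * mw y'.1 ≤ ρ ^ k * mw y.1)

/-- AE. For almost every parameter the images of the words of some length avoid the break
points. -/
def T_AE : Prop := ∀ (S B Q : Type) [Finite S] [Finite B] [Finite Q] (F : Fam S B)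
  (mw : S → ℝ) (L : ℕ) (ρ p r : ℝ) (qs : Q → S) (qa qb : Q → ℝ), (∀ s, 0 < mw s) →
  (∀ b, F.al b * mw (F.tgt b) ≤ mw (F.src b)) → 0 < L → 0 < ρ → ρ < 1 →
  (∀ t ∈ Ioo p r, ∀ w : List B, w.length = L → ∀ y y', (F.sys t).Go w y y' →
    (F.sys t).wal w * mw y'.1 ≤ ρ * mw y.1) → (∀ i, 0 ≤ qa i) →
  ∀ᵐ t, t ∈ Ioo p r → ∃ n, (F.sys t).Good (fun s => {x | ∃ i, qs i = s ∧ x = qb i - qa i * t}) n

/-- NEXT. In a good system the image interval of a word lies in the domain of one branch. -/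
def T_NEXT : Prop := ∀ (S B : Type) (Y : Sys S B) (mw : S → ℝ) (L : ℕ) (ρ : ℝ)
  (br : S → Set ℝ) (n : ℕ), Y.Ctr mw L ρ br → Y.Good br n → ∀ w : List B, w.length = n →
  ∀ y y', Y.Go w y y' → ∀ b, Y.src b = y'.1 → y'.2 ∈ Y.D b →
    0 < n ∧ Icc (Y.wc w) (Y.wc w + Y.wal w) ⊆ Y.D b

/-- SAME. Points with the same past of length `n` have the same future. -/
def T_SAME : Prop := ∀ (S B : Type) (Y : Sys S B) (mw : S → ℝ) (L : ℕ) (ρ : ℝ)
  (br : S → Set ℝ) (n : ℕ), Y.Ctr mw L ρ br → Y.Good br n → ∀ w : List B, w.length = n →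
  ∀ z y z' y', Y.Go w z y → Y.Go w z' y' → ∀ (u : List B) y₁, Y.Go u y y₁ →
    ∃ y₁', Y.Go u y' y₁'

/-- ITER. A word `u` between two points with the same past `w` can be iterated; it contracts. -/
def T_ITER : Prop := ∀ (S B : Type) (Y : Sys S B) (mw : S → ℝ) (L : ℕ) (ρ : ℝ)
  (br : S → Set ℝ) (n : ℕ), Y.Ctr mw L ρ br → Y.Good br n → ∀ w : List B, w.length = n →
  ∀ (u : List B), u ≠ [] → ∀ z y z₁ y₁, Y.Go w z y → Y.Go u y y₁ → Y.Go w z₁ y₁ →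
    y₁.1 = y.1 ∧ Y.wal u < 1 ∧
    ∀ k : ℕ, ∃ y' z', Y.Go (List.replicate k u).flatten y y' ∧ Y.Go w z' y'

/-- CLOSE. Limits of points with the same past. -/
def T_CLOSE : Prop := ∀ (S B : Type) (Y : Sys S B) (mw : S → ℝ) (L : ℕ) (ρ : ℝ)
  (br : S → Set ℝ) (n : ℕ), Y.Ctr mw L ρ br → Y.Good br n → ∀ w : List B, w.length = n →
  ∀ (s : S) (x : ℕ → ℝ) (x' : ℝ), Filter.Tendsto x Filter.atTop (nhds x') →
  (∀ k, ∃ z, Y.Go w z (s, x k)) → ∀ (u : List B) (y₁ : ℕ → S × ℝ),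
  (∀ k, Y.Go u (s, x k) (y₁ k)) → ∃ y', Y.Go u (s, x') y'

/-- FIX. A word between two points with the same past has a periodic point. -/
def T_FIX : Prop := ∀ (S B : Type) (Y : Sys S B) (mw : S → ℝ) (L : ℕ) (ρ : ℝ)
  (br : S → Set ℝ) (n : ℕ), Y.Ctr mw L ρ br → Y.Good br n → ∀ w : List B, w.length = n →
  ∀ (u : List B), u ≠ [] → ∀ z y z₁ y₁, Y.Go w z y → Y.Go u y y₁ → Y.Go w z₁ y₁ →
    ∃ x, Y.Go u (y.1, x) (y.1, x)

/-- FIN. There are finitely many periodic points. -/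
def T_FIN : Prop := ∀ (S B : Type) [Finite S] [Finite B] (Y : Sys S B) (mw : S → ℝ) (L : ℕ)
  (ρ : ℝ) (br : S → Set ℝ) (n : ℕ), Y.Ctr mw L ρ br → Y.Good br n →
  {y : S × ℝ | ∃ w : List B, w ≠ [] ∧ Y.Go w y y}.Finite

/-- ATT. Infinite forward orbits are attracted by periodic points. -/
def T_ATT : Prop := ∀ (S B : Type) [Finite S] [Finite B] (Y : Sys S B) (mw : S → ℝ) (L : ℕ)
  (ρ : ℝ) (br : S → Set ℝ) (n : ℕ), Y.Ctr mw L ρ br → Y.Good br n →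
  ∀ y : ℕ → S × ℝ, (∀ k, ∃ b, Y.Go [b] (y k) (y (k + 1))) →
  ∃ y' : S × ℝ, (∃ w : List B, w ≠ [] ∧ Y.Go w y' y') ∧
    ∀ ε > 0, ∀ N, ∃ k ≥ N, (y k).1 = y'.1 ∧ |(y k).2 - y'.2| < ε

/-- BWD. Infinite backward orbits are periodic. -/
def T_BWD : Prop := ∀ (S B : Type) [Finite S] [Finite B] (Y : Sys S B) (mw : S → ℝ) (L : ℕ)
  (ρ : ℝ) (br : S → Set ℝ) (n : ℕ), Y.Ctr mw L ρ br → Y.Good br n →
  ∀ y : ℕ → S × ℝ, (∀ k, ∃ b, Y.Go [b] (y (k + 1)) (y k)) →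
  ∃ w : List B, w ≠ [] ∧ Y.Go w (y 0) (y 0)

/-- XDISJ. Words that lead to exit slits, with all letters in `fl`, have disjoint sets of
starting points. -/
def T_XDISJ : Prop := ∀ (S B : Type) (Y : Sys S B) (fl : B → Prop) (ex : S → Prop),
  (∀ b, fl b → ¬ ex (Y.src b)) → ∀ w w' : List B, (∀ b ∈ w, fl b) → (∀ b ∈ w', fl b) →
  ∀ y y₁ y₂, Y.Go w y y₁ → ex y₁.1 → Y.Go w' y y₂ → ex y₂.1 → w = w'

/-- XFIN. Finitely many exit words have a set of starting points of length `≥ δ`. -/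
def T_XFIN : Prop := ∀ (S B : Type) [Finite S] (Y : Sys S B) (fl : B → Prop) (ex : S → Prop),
  (∀ b, fl b → ¬ ex (Y.src b)) → ∀ δ > 0,
  {w : List B | w ≠ [] ∧ (∀ b ∈ w, fl b) ∧ ∃ s x x', δ ≤ x' - x ∧
    ∀ z ∈ Ioo x x', ∃ y, Y.Go w (s, z) y ∧ ex y.1}.Finite

/-- XTAIL. From some length on, the length of the set of starting points of an exit word (in
the units `mw`) is the same as for its tail. -/
def T_XTAIL : Prop := ∀ (S B : Type) [Finite S] [Finite B] (Y : Sys S B) (mw : S → ℝ)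
  (fl : B → Prop) (ex : S → Prop), (∀ s, 0 < mw s) →
  (∀ b, fl b → Y.al b * mw (Y.tgt b) = mw (Y.src b)) → (∀ b, fl b → ¬ ex (Y.src b)) →
  ∃ N : ℕ, ∀ (b : B) (w : List B), N ≤ w.length → fl b → (∀ b' ∈ w, fl b') →
    ∀ y y', Y.Go (b :: w) y y' → ex y'.1 → ∀ x x' : ℝ, x < x' →
    (∀ z ∈ Ioo x x', ∃ y₁, Y.Go w (Y.tgt b, z) y₁) →
    (∃ z ∈ Ioo x x', ∃ z', z' ∈ Y.D b ∧ z = Y.al b * z' + Y.c b) →
    ∃ v v' : ℝ, (v' - v) * mw (Y.src b) = (x' - x) * mw (Y.tgt b) ∧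
      ∀ z ∈ Ioo v v', ∃ y₁, Y.Go (b :: w) (Y.src b, z) y₁

/-- XOPEN. If an exit word occurs then one of the same length has an interval of starting
points. -/
def T_XOPEN : Prop := ∀ (S B : Type) [Finite B] (Y : Sys S B) (fl : B → Prop),
  (∀ b x, x ∈ Y.D b → ∃ ε > 0, ∀ x', |x' - x| < ε → ∃ b', Y.src b' = Y.src b ∧
    Y.tgt b' = Y.tgt b ∧ (fl b → fl b') ∧ x' ∈ Y.D b' ∧
    Y.al b' * x' + Y.c b' = Y.al b * x' + Y.c b) →
  ∀ w : List B, (∀ b ∈ w, fl b) → ∀ y y', Y.Go w y y' → ∃ x x' : ℝ, x < x' ∧ ∃ w' : List B,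
    w'.length = w.length ∧ (∀ b ∈ w', fl b) ∧
    ∀ z ∈ Ioo x x', ∃ y₁, Y.Go w' (y.1, z) y₁ ∧ y₁.1 = y'.1

/-- REVGO. Words of the inverse system. -/
def T_REVGO : Prop := ∀ (S B : Type) (Y : Sys S B) (w : List B) (y y' : S × ℝ),
  Y.Go w y y' → Y.rev.Go w.reverse y' y

/-- X1. Exits happen in bounded time. -/
def T_X1 : Prop := ∀ (S B : Type) [Finite S] [Finite B] (Y : Sys S B) (mw : S → ℝ)
  (fl : B → Prop) (ex : S → Prop), (∀ s, 0 < mw s) →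
  (∀ b, fl b → Y.al b * mw (Y.tgt b) = mw (Y.src b)) → (∀ b, fl b → ¬ ex (Y.src b)) →
  (∀ b x, x ∈ Y.D b → ∃ ε > 0, ∀ x', |x' - x| < ε → ∃ b', Y.src b' = Y.src b ∧
    Y.tgt b' = Y.tgt b ∧ (fl b → fl b') ∧ x' ∈ Y.D b' ∧
    Y.al b' * x' + Y.c b' = Y.al b * x' + Y.c b) →
  ∃ N : ℕ, ∀ w : List B, N ≤ w.length → (∀ b ∈ w, fl b) → ∀ y y', Y.Go w y y' → ¬ ex y'.1

end DS
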