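import Pool.Agent.H8.DS.CLOSE
import Pool.Agent.H8.DS.CMP
import Pool.Agent.H8.DS.COUNT
import Pool.Agent.H12.DS.NEXT
import Pool.Agent.H12.DS.SAME
import Pool.Agent.H13.DS.GEN
import Pool.Agent.H18.DS.ACC
import Pool.Agent.H18.DS.AE
import Pool.Agent.H19.DS.CL1
import Pool.Agent.H19.DS.LOOP
import Pool.Agent.H19.DS.REVGO
import Pool.Agent.H19.DS.TUBE
import Pool.Agent.H20.DS.FIX
import Pool.Agent.H20.DS.ITER
import Pool.Agent.H23.DS.COT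
import Pool.Agent.H23.DS.EXC1
import Pool.Agent.H23.DS.PAIRS
import Pool.Agent.H3.DS.HEND
import Pool.Agent.H3.DS.OPEN
import Pool.Agent.H30.DS.GN
import Pool.Agent.H30.DS.HITD
import Pool.Agent.H30.DS.K5
import Pool.Agent.H35.DS.MODEL
import Pool.Agent.H47.DS.UPZ
import Pool.Agent.H47.DS.XDISJ
import Pool.Agent.H5.DS.ATT
import Pool.Agent.H5.DS.BWD
import Pool.Agent.H5.DS.FIN
import Pool.Agent.H5.DS.X1
import Pool.Agent.H5.DS.XFIN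
import Pool.Agent.H5.DS.XTAIL
import Pool.Agent.H50.DS.HEX
import Pool.Agent.H50.DS.SLC
import Pool.Agent.H51.DS.CL
import Pool.Agent.H51.DS.CMPB
import Pool.Agent.H51.DS.DIR
import Pool.Agent.H51.DS.DIRB
import Pool.Agent.H54.DS.XOPEN
import Pool.Agent.H56.DS.IMG
import Pool.Agent.H56.DS.IRR
import Pool.Agent.H56.DS.STEX
import Pool.Agent.H56.DS.UPF
import Pool.Agent.H58.DS.FIRSTK
import Pool.Agent.H58.DS.K1
import Pool.Agent.H58.DS.NF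
import Pool.Agent.H60.DS.K2
import Pool.Agent.H60.DS.K3G
import Pool.Agent.H66.DS.CAT
import Pool.Agent.H66.DS.FCO
import Pool.Agent.H66.DS.NXU
import Pool.Agent.H66.DS.SMALL
import Pool.Agent.H69.DS.HL
import Pool.Agent.H69.DS.K6
import Pool.Agent.H69.DS.LFF
import Pool.Agent.H7.DS.INV
import Pool.Agent.H7.DS.K4G
import Pool.Agent.H70.DS.CHHC
import Pool.Agent.H73.DS.CTB
import Pool.Agent.H73.DS.EQR
import Pool.Agent.H73.DS.EQS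
import Pool.Agent.H73.DS.EQV
import Pool.Agent.H73.DS.FCGO
import Pool.Agent.H73.DS.FSOK
import Pool.Agent.H73.DS.GEO
import Pool.Agent.H73.DS.MID
import Pool.Agent.H73.DS.MIDN
import Pool.Agent.H73.DS.SAMEEQ
import Pool.Agent.H73.DS.SLU
import Pool.Agent.H73.DS.START
import Pool.Agent.H73.DS.TRANS
import Pool.Agent.H75.DS.LF
import Pool.Agent.H75.DS.NAE
import Pool.Agent.H75.DS.SC
import Pool.Agent.H75.DS.SCB
import Pool.Agent.H77.DS.CONV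
import Pool.Agent.H77.DS.HOPFB
import Pool.Agent.H77.DS.STSL
import Pool.Agent.H81.DS.K2B
import Pool.Agent.H81.DS.NEG
import Pool.Agent.H85.DS.BW
import Pool.Agent.H85.DS.FW
import Pool.Agent.H87.DS.EXC2
import Pool.Agent.H87.DS.LFH
import Pool.Agent.H87.DS.LOCAE
import Pool.Agent.H89.DS.FAC
import Pool.Agent.H89.DS.HS
import Pool.Agent.H89.DS.K2A
import Pool.Agent.H91.DS.ESCD
import Pool.Agent.H91.DS.MEET
import Pool.Agent.H92.DS.MEAS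
import Pool.Agent.H92.DS.SLOPE
import Pool.Agent.H94.DS.DNZ
import Pool.Agent.H94.DS.FL
import Pool.Agent.H94.DS.ISOL
import Pool.Agent.H94.DS.LOCF
import Pool.Agent.H97.DS.ESCU
import Pool.Agent.H97.DS.RAY
import Pool.Agent.H97.DS.RAY0

namespace DS

namespace All

theorem r_FL : T_FL :=
  pf_FL

theorem r_IRR : T_IRR :=
  pf_IRR r_FL

theorem r_LOCF : T_LOCF :=
  pf_LOCF

theorem r_MEET : T_MEET :=
  pf_MEET

theorem r_LFF : T_LFF :=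
  pf_LFF r_IRR r_LOCF r_MEET

theorem r_HOPFB : T_HOPFB :=
  pf_HOPFB

theorem r_LFH : T_LFH :=
  pf_LFH r_HOPFB

theorem r_LF : T_LF :=
  pf_LF r_LFF r_LFH

theorem r_SLU : T_SLU :=
  pf_SLU

theorem r_FIRSTK : T_FIRSTK :=
  pf_FIRSTK r_MEET r_SLU

theorem r_EQV : T_EQV :=
  pf_EQV

theorem r_HITD : T_HITD :=
  pf_HITD r_SLU r_EQV

theorem r_MODEL : T_MODEL :=
  pf_MODEL r_LF r_FIRSTK r_MEET r_HITD r_SLU

theorem r_CONV : T_CONV :=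
  pf_CONV

theorem r_SMALL : T_SMALL :=
  pf_SMALL r_CONV

theorem r_PAIRS : T_PAIRS :=
  pf_PAIRS

theorem r_IMG : T_IMG :=
  pf_IMG

theorem r_COUNT : T_COUNT :=
  pf_COUNT' r_PAIRS r_IMG

theorem r_CAT : T_CAT :=
  pf_CAT

theorem r_MEAS : T_MEAS :=
  pf_MEAS

theorem r_SLOPE : T_SLOPE :=
  pf_SLOPE

theorem r_AE : T_AE :=
  pf_AE r_COUNT r_SMALL r_CAT r_MEAS r_SLOPE

theorem r_FCGO : T_FCGO :=
  pf_FCGO

theorem r_HL : T_HL :=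
  pf_HL r_FCGO

theorem r_NEXT : T_NEXT :=
  pf_NEXT

theorem r_SAME : T_SAME :=
  pf_SAME r_NEXT

theorem r_ITER : T_ITER :=
  pf_ITER r_NEXT r_SAME r_SLOPE

theorem r_FIN : T_FIN :=
  pf_FIN r_SAME r_ITER r_NEXT

theorem r_CLOSE : T_CLOSE :=
  pf_CLOSE' r_NEXT

theorem r_FIX : T_FIX :=
  pf_FIX r_ITER r_CLOSE

theorem r_ATT : T_ATT :=
  pf_ATT r_ITER r_FIX

theorem r_BWD : T_BWD :=
  pf_BWD r_SAME r_ITER r_FIX

theorem r_GN : T_GN :=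
  pf_GN r_FIN r_ATT r_BWD

theorem r_XDISJ : T_XDISJ :=
  pf_XDISJ

theorem r_XFIN : T_XFIN :=
  pf_XFIN r_XDISJ

theorem r_XTAIL : T_XTAIL :=
  pf_XTAIL r_XDISJ

theorem r_XOPEN : T_XOPEN :=
  Pool.Agent.H54.DS.pf_XOPEN

theorem r_X1 : T_X1 :=
  pf_X1 r_XFIN r_XTAIL r_XOPEN

theorem r_REVGO : T_REVGO :=
  pf_REVGO

theorem r_K1 : T_K1 :=
  pf_K1 r_X1 r_REVGO r_FCGO

theorem r_ISOL : T_ISOL :=
  pf_ISOL r_LOCF

theorem r_UPZ : T_UPZ :=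
  pf_UPZ r_ISOL

theorem r_DNZ : T_DNZ :=
  pf_DNZ r_ISOL

theorem r_SLC : T_SLC :=
  pf_SLC

theorem r_UPF : T_UPF :=
  pf_UPF r_IRR r_SLC

theorem r_HEX : T_HEX :=
  pf_HEX r_UPZ r_DNZ r_UPF r_EQV

theorem r_TUBE : T_TUBE :=
  pf_TUBE r_ISOL

theorem r_OPEN : T_OPEN :=
  pf_OPEN r_TUBE

theorem r_FCO : T_FCO :=
  pf_FCO r_OPEN

theorem r_K2A : T_K2A :=
  pf_K2A r_HEX r_FCO

theorem r_CTB : T_CTB :=
  pf_CTB

theorem r_GEN : T_GEN :=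
  pf_GEN r_CTB r_HITD

theorem r_HEND : T_HEND :=
  pf_HEND r_SLU r_EQV

theorem r_INV : T_INV :=
  pf_INV r_HITD r_HEND

theorem r_K2 : T_K2 :=
  pf_K2 r_K2A r_GEN r_INV r_OPEN r_HEX r_HITD r_HEND

theorem r_K2B : T_K2B :=
  Pool.Agent.H81.DS.pf_K2B r_GEN r_INV r_OPEN

theorem r_K3G : T_K3G :=
  pf_K3G r_UPZ r_DNZ r_UPF r_TUBE r_ISOL r_SLU r_EQV

theorem r_K4G : T_K4G :=
  pf_K4G r_IRR r_LOCF r_EQV

theorem r_K5 : T_K5 :=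
  pf_K5 r_K2B r_K3G r_K4G

theorem r_K6 : T_K6 :=
  pf_K6 r_K1 r_K2A r_K2 r_K5 r_GEN

theorem r_LOCAE : T_LOCAE :=
  pf_LOCAE r_SMALL r_AE r_HL r_GN r_K6 r_FCGO

theorem r_EXC1 : T_EXC1 :=
  pf_EXC1

theorem r_EXC2 : T_EXC2 :=
  pf_EXC2

theorem r_NAE : T_NAE :=
  pf_NAE r_MODEL r_LOCAE r_EXC1 r_EXC2

theorem r_RAY : T_RAY :=
  pf_RAY

theorem r_NEG : T_NEG :=
  Pool.Agent.H81.DS.pf_NEG

theorem r_MID : T_MID :=
  pf_MID r_EQV r_SLU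

theorem r_START : T_START :=
  pf_START r_SLU

theorem r_HS : T_HS :=
  pf_HS r_START r_SLU r_EQV

theorem r_CHHC : T_CHHC :=
  pf_CHHC r_HS

theorem r_EQS : T_EQS :=
  pf_EQS r_EQV r_SLU

theorem r_CL1 : T_CL1 :=
  pf_CL1 r_EQS r_EQV

theorem r_NF : T_NF :=
  pf_NF r_START r_EQS r_EQV

theorem r_CL : T_CL :=
  pf_CL r_CL1 r_NF r_EQS r_EQV

theorem r_TRANS : T_TRANS :=
  pf_TRANS

theorem r_FSOK : T_FSOK :=
  pf_FSOK r_RAY r_NEG r_MID r_CHHC r_CL r_TRANS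

theorem r_FAC : T_FAC :=
  pf_FAC r_START

theorem r_LOOP : T_LOOP :=
  pf_LOOP r_FAC r_HS

theorem r_STEX : T_STEX :=
  pf_STEX

theorem r_ESCU : T_ESCU :=
  pf_ESCU

theorem r_STSL : T_STSL :=
  pf_STSL r_EQV r_SLU

theorem r_MIDN : T_MIDN :=
  pf_MIDN r_TUBE r_MID

theorem r_FW : T_FW :=
  pf_FW r_UPZ r_UPF r_STEX r_RAY r_NEG r_ESCU r_STSL r_HS r_MIDN r_TRANS

theorem r_ESCD : T_ESCD :=
  pf_ESCD

theorem r_RAY0 : T_RAY0 :=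
  pf_RAY0 r_EQV

theorem r_BW : T_BW :=
  pf_BW r_DNZ r_UPF r_EQS r_RAY r_ESCD r_RAY0 r_STSL r_HS r_MID r_TRANS

theorem r_SC : T_SC :=
  pf_SC r_START r_EQV

theorem r_EQR : T_EQR :=
  pf_EQR r_EQS

theorem r_SAMEEQ : T_SAMEEQ :=
  pf_SAMEEQ

theorem r_CMP : T_CMP :=
  pf_CMP' r_SC r_EQR r_SAMEEQ

theorem r_NXU : T_NXU :=
  pf_NXU r_ISOL r_STEX

theorem r_DIR : T_DIR :=
  pf_DIR r_CMP r_NXU r_EQS r_EQR r_TRANS r_SAMEEQ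

theorem r_SCB : T_SCB :=
  pf_SCB r_SLU r_EQV

theorem r_CMPB : T_CMPB :=
  pf_CMPB r_SCB r_EQR r_TRANS r_SAMEEQ

theorem r_DIRB : T_DIRB :=
  pf_DIRB r_CMPB r_NXU r_EQS r_EQR r_TRANS r_SAMEEQ

theorem r_ACC : T_ACC :=
  pf_ACC r_DIR r_DIRB r_TRANS

theorem r_GEO : T_GEO :=
  pf_GEO r_FSOK r_CL r_LOOP r_FW r_BW r_ACC r_TRANS r_EQS

theorem r_COT : T_COT :=
  pf_COT

theorem r_MAIN : T_MAIN :=
  pf_MAIN r_NAE r_EXC1 r_EXC2 r_GEO r_COT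

end All

end DS
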