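import Pool.Agent.H8.DS.TarA

/-!
# Module CLOSE of the board ds_modules
-/

namespace DS

open Set MeasureTheory

theorem pf_CLOSE' (h1 : T_NEXT) : T_CLOSE := by
  intro S B Y mw L ρ br n hC hG w hw s x x' hx hgo u
  induction u generalizing w s x x' with
  | nil =>
    intro y₁ _
    exact ⟨(s, x'), rfl⟩
  | cons b u ih =>
    intro y₁ hu
    have hb : Y.src b = s := (hu 0).1
    obtain ⟨z0, hz0⟩ := hgo 0
    obtain ⟨hn, hsub⟩ := h1 S B Y mw L ρ br n hC hG w hw z0 (s, x 0) hz0 b hb (hu 0).2.1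
    have hwne : w ≠ [] := by
      intro h
      subst h
      simp only [List.length_nil] at hw
      omega
    have hmemIcc : ∀ k, x k ∈ Icc (Y.wc w) (Y.wc w + Y.wal w) := by
      intro k
      obtain ⟨z, hz⟩ := hgo k
      have hmem := Y.Go_mem w z _ hz hwne
      have hval := Y.Go_val w z _ hz
      have hpos := Y.wal_pos w
      obtain ⟨⟨a1, a2⟩, ⟨a3, a4⟩⟩ := hmem
      simp only at hval
      constructor
      · rw [hval]; nlinarith [mul_pos hpos a1]
      · rw [hval]; nlinarith [mul_lt_mul_of_pos_left a2 hpos]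
    have hlim : x' ∈ Icc (Y.wc w) (Y.wc w + Y.wal w) :=
      isClosed_Icc.mem_of_tendsto hx (Filter.Eventually.of_forall hmemIcc)
    have hD' : x' ∈ Y.D b := hsub hlim
    obtain ⟨a, w₀, rfl⟩ := List.exists_cons_of_ne_nil hwne
    have hlen : (w₀ ++ [b]).length = n := by
      rw [List.length_append, ← hw]
      rfl
    have hx2 : Filter.Tendsto (fun k => Y.al b * x k + Y.c b) Filter.atTop
        (nhds (Y.al b * x' + Y.c b)) := (hx.const_mul _).add_const _
    obtain ⟨y', hy'⟩ := ih (w₀ ++ [b]) hlen (Y.tgt b) (fun k => Y.al b * x k + Y.c b)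
      (Y.al b * x' + Y.c b) hx2
      (fun k => by
        obtain ⟨z, hz⟩ := hgo k
        have g1 : Y.Go ((a :: w₀) ++ [b]) z (Y.tgt b, Y.al b * x k + Y.c b) := by
          rw [Y.Go_append]
          exact ⟨(s, x k), hz, by rw [Y.Go_single]; exact ⟨hb, (hu k).2.1, rfl⟩⟩
        obtain ⟨_, _, g3⟩ := g1
        exact ⟨_, g3⟩)
      y₁ (fun k => (hu k).2.2)
    exact ⟨y', hb, hD', hy'⟩

end DS
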