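import Mathlib

/-!
# Dilation surfaces glued from flat tori and Hopf tori along horizontal slits

A surface of this class is given by finitely many components, each of them a flat torus
`ℝ²/(ℤe + ℤf)` or a Hopf torus `(ℝ² ∖ {0})/(z ↦ lz)` with `l > 1`, by finitely many pairwise
disjoint closed horizontal segments (slits) in them, and by a permutation `glue` of the slits.
All slits are cut open and the lower side of the slit `s` is glued to the upper side of the slit
`glue s` by the dilation taking the one segment onto the other. A leaf of direction `(t, 1)` that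
reaches `s` from below at the parameter `ξ ∈ (0, 1)` therefore goes on from the upper side of
`glue s` at the parameter `ξ`. The singular points are the end points of the slits.
-/

namespace DS

/-- The map `z ↦ r z + (u, v)` of the plane, coded by `(r, u, v)`. -/
noncomputable def act (g : ℝ × ℝ × ℝ) (z : ℝ × ℝ) : ℝ × ℝ := (g.1 * z.1 + g.2.1, g.1 * z.2 + g.2.2)

/-- The point at height `h` above (`h < 0`: below) `z` on the line of direction `(t, 1)`. -/
noncomputable def fwd (t : ℝ) (z : ℝ × ℝ) (h : ℝ) : ℝ × ℝ := (z.1 + t * h, z.2 + h)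

/-- `flat e f`: the flat torus `ℝ²/(ℤe + ℤf)`; `hopf l`: the Hopf torus
`(ℝ² ∖ {0})/(z ↦ lz)`. -/
inductive Comp
  | flat (e f : ℝ × ℝ)
  | hopf (l : ℝ)

/-- `e, f` is a basis of the plane; `l > 1`. -/
def Comp.Good : Comp → Prop
  | .flat e f => e.1 * f.2 - e.2 * f.1 ≠ 0
  | .hopf l => 1 < l

/-- The component is a Hopf torus. -/
def Comp.IsHopf : Comp → Prop
  | .flat _ _ => False
  | .hopf _ => True

/-- The elements of the deck group: `z ↦ z + me + nf`, respectively `z ↦ l^m z`. -/
noncomputable def Comp.el : Comp → ℤ × ℤ → ℝ × ℝ × ℝ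
  | .flat e f, k => (1, k.1 * e.1 + k.2 * f.1, k.1 * e.2 + k.2 * f.2)
  | .hopf l, k => (l ^ k.1, 0, 0)

/-- The deck group of a component. -/
def Comp.deck (c : Comp) : Set (ℝ × ℝ × ℝ) := Set.range c.el

/-- The data: `C` indexes the components and `S` the slits. The slit `s` lies in the component
`comp s` and is the segment from `(a s, b s)` to `(a s + len s, b s)`; its lower side is glued to
the upper side of `glue s`. -/
structure Data (C S : Type) where
  kind : C → Comp
  comp : S → C
  a : S → ℝ
  b : S → ℝ
  len : S → ℝ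
  glue : Equiv.Perm S

variable {C S : Type}

namespace Data

/-- The point of parameter `ξ ∈ [0, 1]` of the slit `s`. -/
noncomputable def pt (X : Data C S) (s : S) (ξ : ℝ) : ℝ × ℝ := (X.a s + ξ * X.len s, X.b s)

/-- The deck group of the component `c`. -/
def deck (X : Data C S) (c : C) : Set (ℝ × ℝ × ℝ) := (X.kind c).deck

/-- `c` is a Hopf torus. -/
def Hopf (X : Data C S) (c : C) : Prop := (X.kind c).IsHopf

/-- The data define a compact connected dilation surface that is not glued from flat tori only:
the tori are tori, the closed slits are nondegenerate and pairwise disjoint (and disjoint from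
their own translates, and avoid the origin in the Hopf tori), the surface is connected and one
component at least is a Hopf torus. -/
structure Surface (X : Data C S) : Prop where
  good : ∀ c, (X.kind c).Good
  pos : ∀ s, 0 < X.len s
  disj : ∀ s s', X.comp s = X.comp s' → ∀ g ∈ X.deck (X.comp s'), ∀ ξ ∈ Set.Icc (0 : ℝ) 1,
    ∀ ξ' ∈ Set.Icc (0 : ℝ) 1, X.pt s ξ = act g (X.pt s' ξ') → s = s' ∧ g = (1, 0, 0)
  origin : ∀ s, X.Hopf (X.comp s) → ∀ ξ ∈ Set.Icc (0 : ℝ) 1, X.pt s ξ ≠ 0
  conn : ∀ c c', Relation.EqvGen (fun c c' => ∃ s, X.comp s = c ∧ X.comp (X.glue s) = c') c c'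
  hopf : ∃ c, X.Hopf c

/-- The slits of the Hopf tori lie in the closed upper half plane. -/
def Upper (X : Data C S) : Prop := ∀ s, X.Hopf (X.comp s) → 0 ≤ X.b s

/-- There are positive weights of the slits such that the gluing maps have slope `1` when the
lengths in each slit are measured in units of its weight, the weight is constant on every flat
torus, and in a Hopf torus a slit of a smaller height has a smaller weight, where the weights of
the slits are extended to all their lifts by homogeneity. (If every Hopf torus carries one slit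
only, the last condition is automatic.) -/
def Contracting (X : Data C S) : Prop := ∃ w : S → ℝ, (∀ s, 0 < w s) ∧
  (∀ s, X.len s * w (X.glue s) = X.len (X.glue s) * w s) ∧
  (∀ s s', X.comp s = X.comp s' → ¬ X.Hopf (X.comp s) → w s = w s') ∧
  (∀ s s' l, X.comp s = X.comp s' → X.kind (X.comp s) = .hopf l →
    ∀ n : ℤ, X.b s < l ^ n * X.b s' → w s < l ^ n * w s')

/-- `z` lies on a lift of a closed slit of the component `c`. -/
def OnSlit (X : Data C S) (c : C) (z : ℝ × ℝ) : Prop :=
  ∃ s, X.comp s = c ∧ ∃ g ∈ X.deck c, ∃ ξ ∈ Set.Icc (0 : ℝ) 1, z = act g (X.pt s ξ)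

/-- `z` is an end point of a lift of a slit of the component `c`: a singular point. -/
def OnEnd (X : Data C S) (c : C) (z : ℝ × ℝ) : Prop :=
  ∃ s, X.comp s = c ∧ ∃ g ∈ X.deck c, z = act g (X.pt s 0) ∨ z = act g (X.pt s 1)

/-- `z` is off the closed slits (and is not the origin if `c` is a Hopf torus). -/
def Pure (X : Data C S) (c : C) (z : ℝ × ℝ) : Prop := ¬ X.OnSlit c z ∧ (X.Hopf c → z ≠ 0)

/-- The pairs `(c, z)` that stand for the nonsingular points of the surface. A point `(c, z)`
with `z` on a slit `s` stands for the point on the lower side of `s` (which is the same point of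
the surface as the point on the upper side of `glue s`). -/
def Valid (X : Data C S) (c : C) (z : ℝ × ℝ) : Prop := ¬ X.OnEnd c z ∧ (X.Hopf c → z ≠ 0)

/-- The open segment of direction `(t, 1)` and height `h` above `z` is off the closed slits. -/
def Clear (X : Data C S) (t : ℝ) (c : C) (z : ℝ × ℝ) (h : ℝ) : Prop :=
  ∀ k, 0 < k → k < h → X.Pure c (fwd t z k)

/-- The leaf through the point `P` of the surface leaves `P` upwards from the point `z` of the
plane of the component `c`: for a point off the slits this is the point itself, and for a point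
on the lower side of a slit `s` it is the point of the same parameter on `glue s`. The number
`r` is the derivative of the identification, for horizontal displacements. -/
inductive Start (X : Data C S) : C × ℝ × ℝ → C → ℝ × ℝ → ℝ → Prop
  | pure (c : C) (z : ℝ × ℝ) (h : X.Pure c z) : Start X (c, z) c z 1
  | cross (s : S) (g : ℝ × ℝ × ℝ) (ξ : ℝ) (hg : g ∈ X.deck (X.comp s)) (h0 : 0 < ξ)
      (h1 : ξ < 1) : Start X (X.comp s, act g (X.pt s ξ)) (X.comp (X.glue s))
        (X.pt (X.glue s) ξ) (X.len (X.glue s) / (g.1 * X.len s))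

/-- One piece of a leaf of direction `(t, 1)` followed upwards: from `P` to `Q` inside one
component (`Q` is given up to the deck group). The number `m` is the derivative of the flow from
`P` to `Q`, for horizontal displacements in the coordinates at `P` and at `Q`. -/
def Step (X : Data C S) (t : ℝ) (P Q : C × ℝ × ℝ) (m : ℝ) : Prop :=
  ∃ (c : C) (z : ℝ × ℝ) (r h : ℝ) (g : ℝ × ℝ × ℝ), X.Start P c z r ∧ 0 < h ∧ X.Clear t c z h ∧
    X.Valid c (fwd t z h) ∧ g ∈ X.deck c ∧ Q = (c, act g (fwd t z h)) ∧ m = r * g.1

/-- The leaf of `P` reaches `Q` when it is followed upwards; `m` is the derivative of the flow. -/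
inductive Reach (X : Data C S) (t : ℝ) : C × ℝ × ℝ → C × ℝ × ℝ → ℝ → Prop
  | step {P Q : C × ℝ × ℝ} {m : ℝ} (h : X.Step t P Q m) : Reach X t P Q m
  | tail {P Q R : C × ℝ × ℝ} {m n : ℝ} (h : Reach X t P Q m) (h' : X.Step t Q R n) :
      Reach X t P R (m * n)

/-- The leaf of `P` is closed. -/
def ClosedAt (X : Data C S) (t : ℝ) (P : C × ℝ × ℝ) : Prop := ∃ m, X.Reach t P P m

/-- The leaf followed upwards from `P` runs into a singular point before it meets a slit. -/
def EndAbove (X : Data C S) (t : ℝ) (P : C × ℝ × ℝ) : Prop :=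
  ∃ c z r h, X.Start P c z r ∧ 0 < h ∧ X.Clear t c z h ∧ X.OnEnd c (fwd t z h)

/-- The leaf followed downwards from `P` runs into a singular point before it meets a slit. -/
def EndBelow (X : Data C S) (t : ℝ) (P : C × ℝ × ℝ) : Prop :=
  ∃ z h, X.OnEnd P.1 z ∧ 0 < h ∧ X.Clear t P.1 z h ∧ P.2 = fwd t z h

/-- The leaf of `P` is defined for all time upwards. -/
def InfAbove (X : Data C S) (t : ℝ) (P : C × ℝ × ℝ) : Prop :=
  ¬ X.EndAbove t P ∧ ∀ Q m, X.Reach t P Q m → ¬ X.EndAbove t Q

/-- The leaf of `P` is defined for all time downwards. -/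
def InfBelow (X : Data C S) (t : ℝ) (P : C × ℝ × ℝ) : Prop :=
  ¬ X.EndBelow t P ∧ ∀ Q m, X.Reach t Q P m → ¬ X.EndBelow t Q

/-- `P` and `Q` lie in the same component, at a distance less than `ε`. -/
def Near (ε : ℝ) (P Q : C × ℝ × ℝ) : Prop :=
  P.1 = Q.1 ∧ |P.2.1 - Q.2.1| < ε ∧ |P.2.2 - Q.2.2| < ε

/-- The upward half of the leaf of `P` accumulates at `Q`. -/
def AccAbove (X : Data C S) (t : ℝ) (P Q : C × ℝ × ℝ) : Prop :=
  ∀ ε > 0, ∀ R, (R = P ∨ ∃ m, X.Reach t P R m) → ∃ R' m, X.Reach t R R' m ∧ Near ε R' Q

/-- The downward half of the leaf of `P` accumulates at `Q`. -/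
def AccBelow (X : Data C S) (t : ℝ) (P Q : C × ℝ × ℝ) : Prop :=
  ∀ ε > 0, ∀ R, (R = P ∨ ∃ m, X.Reach t R P m) → ∃ R' m, X.Reach t R' R m ∧ Near ε R' Q

/-- The foliation of direction `(t, 1)` is Morse-Smale: there are finitely many closed leaves, at
least one (`F` is a set of representatives, off the slits), they are all hyperbolic, and every
leaf that is not closed accumulates, in each time direction in which it is defined for all time,
on one of them. -/
def MorseSmale (X : Data C S) (t : ℝ) : Prop :=
  ∃ F : Set (C × ℝ × ℝ), F.Finite ∧ F.Nonempty ∧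
    (∀ Q ∈ F, X.Pure Q.1 Q.2 ∧ X.ClosedAt t Q) ∧
    (∀ P, X.ClosedAt t P → ∃ Q ∈ F, ∃ m, X.Reach t P Q m) ∧
    (∀ P m, X.Reach t P P m → m ≠ 1) ∧
    (∀ P, X.Valid P.1 P.2 → ¬ X.ClosedAt t P →
      (X.InfAbove t P → ∃ Q ∈ F, X.AccAbove t P Q) ∧
      (X.InfBelow t P → ∃ Q ∈ F, X.AccBelow t P Q))

end Data

end DS
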