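import Pool.Agent.H8.DS.Defs
import Pool.Agent.H8.DS.Abs

/-!
Definitions used in the proof: points of the slits, the first return relation `Hit`, lifts, good
directions, models.
-/

namespace DS

open Set

variable {C S : Type}

namespace Data

/-- The product of two maps. -/
noncomputable def gmul (g h : ℝ × ℝ × ℝ) : ℝ × ℝ × ℝ :=
  (g.1 * h.1, g.1 * h.2.1 + g.2.1, g.1 * h.2.2 + g.2.2)

/-- The inverse map. -/
noncomputable def ginv (g : ℝ × ℝ × ℝ) : ℝ × ℝ × ℝ := (g.1⁻¹, -(g.2.1 / g.1), -(g.2.2 / g.1))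

theorem act_gmul (g h : ℝ × ℝ × ℝ) (z : ℝ × ℝ) : act (gmul g h) z = act g (act h z) := by
  unfold act gmul; ext <;> simp <;> ring

theorem act_one (z : ℝ × ℝ) : act (1, 0, 0) z = z := by unfold act; ext <;> simp

theorem act_ginv (g : ℝ × ℝ × ℝ) (hg : g.1 ≠ 0) (z : ℝ × ℝ) : act (ginv g) (act g z) = z := by
  unfold act ginv; ext <;> simp <;> field_simp <;> ring

theorem act_ginv' (g : ℝ × ℝ × ℝ) (hg : g.1 ≠ 0) (z : ℝ × ℝ) : act g (act (ginv g) z) = z := by
  unfold act ginv; ext <;> simp <;> field_simp <;> ring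

theorem fwd_add (t : ℝ) (z : ℝ × ℝ) (h k : ℝ) : fwd t (fwd t z h) k = fwd t z (h + k) := by
  unfold fwd; ext <;> simp <;> ring

theorem fwd_zero (t : ℝ) (z : ℝ × ℝ) : fwd t z 0 = z := by unfold fwd; ext <;> simp

theorem act_fwd (g : ℝ × ℝ × ℝ) (t : ℝ) (z : ℝ × ℝ) (h : ℝ) :
    act g (fwd t z h) = fwd t (act g z) (g.1 * h) := by
  unfold act fwd; ext <;> simp <;> ring

section deck

variable (X : Data C S) (hX : X.Surface)
include hX

theorem deck_pos (c : C) (g : ℝ × ℝ × ℝ) (hg : g ∈ X.deck c) : 0 < g.1 := by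
  obtain ⟨k, rfl⟩ := hg
  have := hX.good c
  cases hk : X.kind c with
  | flat e f => simp [Comp.el]
  | hopf l =>
    rw [hk] at this
    simp only [Comp.Good] at this
    simp only [Comp.el]
    exact zpow_pos (by linarith) _

theorem deck_one (c : C) : ((1, 0, 0) : ℝ × ℝ × ℝ) ∈ X.deck c := by
  refine ⟨(0, 0), ?_⟩
  cases hk : X.kind c with
  | flat e f => simp [Comp.el]
  | hopf l => simp [Comp.el]

theorem deck_mul (c : C) (g h : ℝ × ℝ × ℝ) (hg : g ∈ X.deck c) (hh : h ∈ X.deck c) :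
    gmul g h ∈ X.deck c := by
  obtain ⟨k, rfl⟩ := hg
  obtain ⟨k', rfl⟩ := hh
  have := hX.good c
  refine ⟨(k.1 + k'.1, k.2 + k'.2), ?_⟩
  cases hk : X.kind c with
  | flat e f =>
    simp only [Comp.el, gmul]
    push_cast
    refine Prod.ext (by simp) (Prod.ext ?_ ?_) <;> simp <;> ring
  | hopf l =>
    rw [hk] at this
    simp only [Comp.Good] at this
    have hl : l ≠ 0 := by linarith
    simp [Comp.el, gmul, zpow_add₀ hl]

theorem deck_inv (c : C) (g : ℝ × ℝ × ℝ) (hg : g ∈ X.deck c) : ginv g ∈ X.deck c := by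
  obtain ⟨k, rfl⟩ := hg
  refine ⟨(-k.1, -k.2), ?_⟩
  cases hk : X.kind c with
  | flat e f =>
    simp only [Comp.el, ginv]
    push_cast
    refine Prod.ext (by simp) (Prod.ext ?_ ?_) <;> simp <;> ring
  | hopf l => simp [Comp.el, ginv]

theorem deck_flat (c : C) (hc : ¬ X.Hopf c) (g : ℝ × ℝ × ℝ) (hg : g ∈ X.deck c) : g.1 = 1 := by
  obtain ⟨k, rfl⟩ := hg
  cases hk : X.kind c with
  | flat e f => simp [Comp.el]
  | hopf l => exact absurd (by unfold Hopf; rw [hk]; trivial) hc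

end deck

/-- The point `(s, ξ)` of the slits as a point of the surface. -/
noncomputable def sp (X : Data C S) (y : S × ℝ) : C × ℝ × ℝ := (X.comp y.1, X.pt y.1 y.2)

/-- First return to the slits: the leaf leaving the upper side of `glue s` at `ξ` meets the next
slit in `(s', η)`. -/
def Hit (X : Data C S) (t : ℝ) (y y' : S × ℝ) : Prop :=
  y.2 ∈ Ioo (0 : ℝ) 1 ∧ y'.2 ∈ Ioo (0 : ℝ) 1 ∧ X.comp y'.1 = X.comp (X.glue y.1) ∧
    ∃ g ∈ X.deck (X.comp y'.1), ∃ h > 0,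
      X.Clear t (X.comp (X.glue y.1)) (X.pt (X.glue y.1) y.2) h ∧
      fwd t (X.pt (X.glue y.1) y.2) h = act g (X.pt y'.1 y'.2)

/-- `n` consecutive first returns. -/
def HC (X : Data C S) (t : ℝ) : ℕ → S × ℝ → S × ℝ → Prop
  | 0, y, y' => y = y'
  | n + 1, y, y' => ∃ y₁, X.Hit t y y₁ ∧ X.HC t n y₁ y'

/-- `n` consecutive first returns, all of them inside flat tori. -/
def FC (X : Data C S) (t : ℝ) : ℕ → S × ℝ → S × ℝ → Prop
  | 0, y, y' => y = y'
  | n + 1, y, y' => ∃ y₁, X.Hit t y y₁ ∧ ¬ X.Hopf (X.comp (X.glue y.1)) ∧ X.FC t n y₁ y'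

/-- The leaf leaving the upper side of `glue s` at `ξ` runs into an end point of a slit. -/
def EndA (X : Data C S) (t : ℝ) (y : S × ℝ) : Prop :=
  ∃ h > 0, X.Clear t (X.comp (X.glue y.1)) (X.pt (X.glue y.1) y.2) h ∧
    X.OnEnd (X.comp (X.glue y.1)) (fwd t (X.pt (X.glue y.1) y.2) h)

/-- The leaf arriving at the lower side of `s` at `ξ` comes from an end point of a slit. -/
def EndB (X : Data C S) (t : ℝ) (y : S × ℝ) : Prop :=
  ∃ z, ∃ h > 0, X.OnEnd (X.comp y.1) z ∧ X.Clear t (X.comp y.1) z h ∧ X.pt y.1 y.2 = fwd t z h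

/-- Good directions: irrational for the flat tori, not the direction from the origin to an end
point of a slit in the Hopf tori, and not the direction of a saddle connection. -/
structure Tgood (X : Data C S) (t : ℝ) : Prop where
  irr : ∀ c e f, X.kind c = .flat e f → ∀ m n : ℤ,
    m * e.1 + n * f.1 = t * (m * e.2 + n * f.2) → m = 0 ∧ n = 0
  ends : ∀ s, X.Hopf (X.comp s) → 0 < X.b s → X.a s ≠ t * X.b s ∧ X.a s + X.len s ≠ t * X.b s
  nosad : ∀ c z h, X.OnEnd c z → 0 < h → X.Clear t c z h → ¬ X.OnEnd c (fwd t z h)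
  nosad' : ∀ (s : S) (ξ : ℝ) (n : ℕ) (y : S × ℝ), ξ ∈ Ioo (0 : ℝ) 1 → X.EndB t (s, ξ) →
    X.HC t n (s, ξ) y → ¬ X.EndA t y

/-- Lifts of slits are coded by the slit and the deck transformation. -/
abbrev Lift (S : Type) := S × ℤ × ℤ

/-- The deck transformation of a lift. -/
noncomputable def lel (X : Data C S) (k : Lift S) : ℝ × ℝ × ℝ := (X.kind (X.comp k.1)).el k.2

/-- Height, left end and width of a lift. -/
noncomputable def hgt (X : Data C S) (k : Lift S) : ℝ := (X.lel k).1 * X.b k.1 + (X.lel k).2.2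
noncomputable def lft (X : Data C S) (k : Lift S) : ℝ := (X.lel k).1 * X.a k.1 + (X.lel k).2.1
noncomputable def wid (X : Data C S) (k : Lift S) : ℝ := (X.lel k).1 * X.len k.1

/-- The parameter on the upper side of `glue s` from which the line of direction `(t, 1)` meets
the left end (`i = 0`) or the right end (`i = 1`) of the lift `k`. -/
noncomputable def q (X : Data C S) (s : S) (k : Lift S) (i t : ℝ) : ℝ :=
  (X.lft k + i * X.wid k - X.a (X.glue s) - t * (X.hgt k - X.b (X.glue s))) / X.len (X.glue s)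

/-- The line of direction `(t, 1)` from the upper side of `glue s` at `ξ` upwards meets the closed
lift `k`. -/
def Meets (X : Data C S) (t : ℝ) (s : S) (ξ : ℝ) (k : Lift S) : Prop :=
  X.comp k.1 = X.comp (X.glue s) ∧ X.b (X.glue s) < X.hgt k ∧ X.q s k 0 t ≤ ξ ∧ ξ ≤ X.q s k 1 t

/-- Weights as in `Contracting`. -/
structure Wt (X : Data C S) (w : S → ℝ) : Prop where
  pos : ∀ s, 0 < w s
  gl : ∀ s, X.len s * w (X.glue s) = X.len (X.glue s) * w s
  flat : ∀ s s', X.comp s = X.comp s' → ¬ X.Hopf (X.comp s) → w s = w s'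
  hopf : ∀ s s' l, X.comp s = X.comp s' → X.kind (X.comp s) = .hopf l →
    ∀ n : ℤ, X.b s < l ^ n * X.b s' → w s < l ^ n * w s'

/-- A finite family of branches that describes the first return relation for all parameters in
an interval. -/
structure Model (X : Data C S) (w : S → ℝ) (B Q : Type) extends Fam S B where
  qs : Q → S
  qa : Q → ℝ
  qb : Q → ℝ
  qa_nonneg : ∀ i, 0 ≤ qa i
  end0 : ∀ s, ∃ i, qs i = s ∧ qa i = 0 ∧ qb i = 0
  end1 : ∀ s, ∃ i, qs i = s ∧ qa i = 0 ∧ qb i = 1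
  piece : ∀ t ∈ Ioo lo hi, ∀ s u v, u ≤ v → Icc u v ⊆ Ioo (0 : ℝ) 1 →
    (∀ i, qs i = s → qb i - qa i * t ∉ Icc u v) →
    (∃ b, src b = s ∧ ∀ x ∈ Icc u v, (t, x) ∈ D b) ∨
      ∀ b, src b = s → ∀ x ∈ Icc u v, (t, x) ∉ D b
  hit : ∀ t ∈ Ioo lo hi, ∀ y y' : S × ℝ, X.Hit t y y' ↔
    ∃ b, src b = y.1 ∧ tgt b = y'.1 ∧ (t, y.2) ∈ D b ∧ y'.2 = al b * y.2 + (be b * t + ga b)
  slope_flat : ∀ b, ¬ X.Hopf (X.comp (X.glue (src b))) →
    al b * (X.len (tgt b) / w (tgt b)) = X.len (src b) / w (src b)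
  slope_hopf : ∀ b, X.Hopf (X.comp (X.glue (src b))) →
    al b * (X.len (tgt b) / w (tgt b)) < X.len (src b) / w (src b)
  stab : ∀ b t x, (t, x) ∈ D b → ∃ ε > 0, ∀ x', |x' - x| < ε → ∃ b', src b' = src b ∧
    tgt b' = tgt b ∧ al b' = al b ∧ be b' = be b ∧ ga b' = ga b ∧ (t, x') ∈ D b'

/-- What the dynamics of the first return relation gives for almost every direction. -/
structure Nice (X : Data C S) (t : ℝ) : Prop where
  fin : {y : S × ℝ | ∃ n, 0 < n ∧ X.HC t n y y}.Finite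
  att : ∀ y : ℕ → S × ℝ, (∀ k, X.Hit t (y k) (y (k + 1))) → ∃ y' : S × ℝ,
    (∃ n, 0 < n ∧ X.HC t n y' y') ∧
      ∀ ε > 0, ∀ N, ∃ k ≥ N, (y k).1 = y'.1 ∧ |(y k).2 - y'.2| < ε
  bwd : ∀ y : ℕ → S × ℝ, (∀ k, X.Hit t (y (k + 1)) (y k)) → ∃ n, 0 < n ∧ X.HC t n (y 0) (y 0)
  flat : ∃ n, ∀ y y', ¬ X.FC t n y y'

end Data

end DS
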