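import Pool.Agent.H8.DS.Geo

/-!
More definitions used in the proof.
-/

namespace DS

open Set

variable {C S : Type}

namespace Data

/-- The forward orbit never runs into an end point and the backward orbit never comes from one. -/
def Gen (X : Data C S) (t : ℝ) (y : S × ℝ) : Prop :=
  (∀ n y', X.HC t n y y' → ¬ X.EndA t y') ∧ (∀ n y', X.HC t n y' y → ¬ X.EndB t y')

/-- The orbit is infinite in both directions and stays in flat tori. -/
def Rr (X : Data C S) (t : ℝ) (y : S × ℝ) : Prop :=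
  ∀ n, (∃ y', X.FC t n y y') ∧ (∃ y', X.FC t n y' y)

/-- The slit has a point with such an orbit. -/
def RR (X : Data C S) (t : ℝ) (s : S) : Prop := ∃ ξ ∈ Ioo (0 : ℝ) 1, X.Rr t (s, ξ)

/-- `P` and `Q` are the same point of the surface, up to the deck group of their component. -/
def Same (X : Data C S) (P Q : C × ℝ × ℝ) : Prop :=
  P.1 = Q.1 ∧ ∃ g ∈ X.deck P.1, Q.2 = act g P.2

/-- The leaf of `P` reaches `Q` upwards. -/
def Leaf (X : Data C S) (t : ℝ) (P Q : C × ℝ × ℝ) : Prop := ∃ m, X.Reach t P Q m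

/-- `n` consecutive steps between slit points, with the derivative `m`. -/
def Ch (X : Data C S) (t : ℝ) : ℕ → S × ℝ → S × ℝ → ℝ → Prop
  | 0, y, y', m => y = y' ∧ m = 1
  | n + 1, y, y', m => ∃ y₁ m₁ m₂, y₁.2 ∈ Ioo (0 : ℝ) 1 ∧ X.Step t (X.sp y) (X.sp y₁) m₁ ∧
      X.Ch t n y₁ y' m₂ ∧ m = m₁ * m₂

/-- The height of the first hit above the upper side of `glue s`. -/
noncomputable def up (X : Data C S) (t : ℝ) (y : S × ℝ) : ℝ :=
  sSup {h | X.Clear t (X.comp (X.glue y.1)) (X.pt (X.glue y.1) y.2) h}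

/-- A point off the slits on the leaf of `y`. -/
noncomputable def mid (X : Data C S) (t : ℝ) (y : S × ℝ) : C × ℝ × ℝ :=
  (X.comp (X.glue y.1), fwd t (X.pt (X.glue y.1) y.2) (X.up t y / 2))

/-- The map from the upper side of `glue s` to the lift `k` along the direction `(t, 1)` is
`ξ ↦ La * ξ + (Lb * t + Lc)`. -/
noncomputable def La (X : Data C S) (s : S) (k : Lift S) : ℝ :=
  X.len (X.glue s) / ((X.lel k).1 * X.len k.1)
noncomputable def Lb (X : Data C S) (s : S) (k : Lift S) : ℝ :=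
  (X.hgt k - X.b (X.glue s)) / ((X.lel k).1 * X.len k.1)
noncomputable def Lc (X : Data C S) (s : S) (k : Lift S) : ℝ :=
  (X.a (X.glue s) - X.lft k) / ((X.lel k).1 * X.len k.1)

/-- Representatives of the closed leaves: the lower rays of the Hopf tori, the upper rays that
meet no slit, and the leaves of the periodic points of the first return relation. -/
def FS (X : Data C S) (t : ℝ) : Set (C × ℝ × ℝ) :=
  {Q | (∃ c, X.Hopf c ∧ Q = (c, -t, -1)) ∨
    (∃ c, X.Hopf c ∧ (∀ k > 0, X.Pure c (k * t, k)) ∧ Q = (c, t, 1)) ∨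
    (∃ y, (∃ n, 0 < n ∧ X.HC t n y y) ∧ Q = X.mid t y)}

end Data

end DS
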